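import Pool.Agent.Lib.MP_8b9ec4_lc.Myc

/-!
# Algebraically independent Cantor sets
-/

namespace Pool.Agent.MP8b9

open Set Topology TopologicalSpace MvPolynomial

theorem interior_zeroSet {K : Type*} [CommRing K] [IsDomain K] [CharZero K] [TopologicalSpace K]
    (hK : ∀ U : Set K, IsOpen U → U.Nonempty → U.Infinite) (f : MvPolynomial (Fin 6) ℤ)
    (hf : f ≠ 0) : interior {y : Fin 6 → K | aeval y f = 0} = ∅ := by
  by_contra hne
  obtain ⟨y, hy⟩ := nonempty_iff_ne_empty.2 hne
  obtain ⟨u, hu, huV⟩ := isOpen_pi_iff'.1 (isOpen_interior (s := {y : Fin 6 → K | aeval y f = 0}))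
    y hy
  apply hf
  have h1 : MvPolynomial.map (Int.castRingHom K) f = 0 := by
    refine MvPolynomial.funext_set u (fun i => hK _ (hu i).1 ⟨y i, (hu i).2⟩) fun x hx => ?_
    have h2 : x ∈ {y : Fin 6 → K | aeval y f = 0} := interior_subset (huV hx)
    have h3 : aeval x f = 0 := h2
    rw [MvPolynomial.aeval_def, MvPolynomial.eval₂_eq_eval_map] at h3
    simpa using h3
  exact MvPolynomial.map_injective _ (RingHom.injective_int _) (by rw [h1, map_zero])

/-- In a nondiscrete completely metrizable topological domain of characteristic zero there is a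
Cantor set all of whose polynomial relations over the integers are trivial. -/
theorem exists_algInd {K : Type*} [CommRing K] [IsDomain K] [CharZero K] [TopologicalSpace K]
    [IsTopologicalRing K] [IsCompletelyMetrizableSpace K]
    (hK : ∀ U : Set K, IsOpen U → U.Nonempty → U.Infinite) :
    ∃ σ : (ℕ → Bool) → K, Continuous σ ∧ ∀ (f : MvPolynomial (Fin 6) ℤ)
      (z : Fin 6 → (ℕ → Bool)), aeval (fun i => σ (z i)) f = 0 →
      ∀ y : (ℕ → Bool) → ℤ, aeval (fun i => y (z i)) f = 0 := by
  have : Countable (MvPolynomial (Fin 6) ℤ) := by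
    rw [← Cardinal.mk_le_aleph0_iff]
    refine (MvPolynomial.cardinalMk_le_max (σ := Fin 6) (R := ℤ)).trans ?_
    simp
  have : Countable {f : MvPolynomial (Fin 6) ℤ // f ≠ 0} := inferInstance
  obtain ⟨σ, hσ, h⟩ := mycielski (Y := K) (ι := {f : MvPolynomial (Fin 6) ℤ // f ≠ 0})
    (fun _ => 6) (fun f => {y | aeval y f.1 = 0}) (fun f => by
      refine isClosed_eq ?_ continuous_const
      simp only [MvPolynomial.aeval_def, MvPolynomial.eval₂_eq_eval_map]
      exact MvPolynomial.continuous_eval _) (fun f => interior_zeroSet hK f.1 f.2)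
  refine ⟨σ, hσ, fun f z hz y => ?_⟩
  obtain ⟨w, hw, α, hα⟩ := exists_factor 6 z
  have h1 : MvPolynomial.rename α f = 0 := by
    by_contra hne
    refine h ⟨MvPolynomial.rename α f, hne⟩ w hw ?_
    change aeval (fun i => σ (w i)) (MvPolynomial.rename α f) = 0
    rw [MvPolynomial.aeval_rename]
    simpa only [Function.comp_def, hα] using hz
  have h2 : aeval (fun i => y (w i)) (MvPolynomial.rename α f) = 0 := by rw [h1, map_zero]
  rw [MvPolynomial.aeval_rename] at h2
  simpa only [Function.comp_def, hα] using h2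

/-- The polynomial relations over the integers between the values of `σ` are trivial. -/
def AlgInd {K : Type*} [CommRing K] (σ : (ℕ → Bool) → K) : Prop :=
  ∀ (f : MvPolynomial (Fin 6) ℤ) (z : Fin 6 → (ℕ → Bool)), aeval (fun i => σ (z i)) f = 0 →
    ∀ y : (ℕ → Bool) → ℤ, aeval (fun i => y (z i)) f = 0

theorem AlgInd.lin {K : Type*} [CommRing K] {σ : (ℕ → Bool) → K} (hσ : AlgInd σ)
    {a1 a2 a3 : ℕ → Bool} (h12 : a1 ≠ a2) (h13 : a1 ≠ a3) (h23 : a2 ≠ a3) {l m n : ℤ}
    (h : (l : K) + m * (σ a1 - σ a2) + n * (σ a1 - σ a3) = 0) : l = 0 ∧ m = 0 ∧ n = 0 := by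
  classical
  have H : ∀ y : (ℕ → Bool) → ℤ, l + m * (y a1 - y a2) + n * (y a1 - y a3) = 0 := by
    intro y
    have h1 := hσ (C l + C m * (X 0 - X 1) + C n * (X 0 - X 2)) ![a1, a2, a3, a3, a3, a3]
      (by simpa using h) y
    simpa using h1
  have e0 := H (fun _ => 0)
  have e1 := H (fun x => if x = a2 then 1 else 0)
  have e2 := H (fun x => if x = a3 then 1 else 0)
  simp only [h12, h13, h23, h23.symm, if_true, if_false] at e0 e1 e2
  refine ⟨by linarith, by linarith, by linarith⟩

theorem AlgInd.injective {K : Type*} [CommRing K] {σ : (ℕ → Bool) → K} (hσ : AlgInd σ) :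
    Function.Injective σ := by
  classical
  intro x y hxy
  by_contra hne
  have h1 := hσ (X 0 - X 1) ![x, y, y, y, y, y] (by simp [hxy]) (fun z => if z = x then 1 else 0)
  simp [Ne.symm hne] at h1

theorem AlgInd.ratio {K : Type*} [CommRing K] {σ : (ℕ → Bool) → K} (hσ : AlgInd σ)
    {a1 a2 a3 b1 b2 b3 : ℕ → Bool} (h12 : a1 ≠ a2) (h13 : a1 ≠ a3) (h23 : a2 ≠ a3)
    (k12 : b1 ≠ b2) (k13 : b1 ≠ b3) (k23 : b2 ≠ b3) {j j' : ℤ}
    (h : (σ b1 - σ b2 - j) * (σ a1 - σ a3) = (σ b1 - σ b3 - j') * (σ a1 - σ a2)) :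
    b1 = a1 ∧ b2 = a2 ∧ b3 = a3 ∧ j = 0 ∧ j' = 0 := by
  classical
  have H : ∀ y : (ℕ → Bool) → ℤ,
      (y b1 - y b2 - j) * (y a1 - y a3) = (y b1 - y b3 - j') * (y a1 - y a2) := by
    intro y
    have h1 := hσ ((X 3 - X 4 - C j) * (X 0 - X 2) - (X 3 - X 5 - C j') * (X 0 - X 1))
      ![a1, a2, a3, b1, b2, b3] (by simpa [sub_eq_zero] using h) y
    have h2 : (y b1 - y b2 - j) * (y a1 - y a3) - (y b1 - y b3 - j') * (y a1 - y a2) = 0 := by
      simpa using h1
    linarith
  have hj : j = 0 := by
    have e1 := H (fun x => if x = a3 then 1 else 0)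
    have e2 := H (fun x => if x = a3 then 2 else 0)
    simp only [h12, h13, h23, if_true, if_false] at e1 e2
    split_ifs at e1 e2 <;> omega
  have hj' : j' = 0 := by
    have e1 := H (fun x => if x = a2 then 1 else 0)
    have e2 := H (fun x => if x = a2 then 2 else 0)
    simp only [h12, h13, h23.symm, if_true, if_false] at e1 e2
    split_ifs at e1 e2 <;> omega
  subst hj
  subst hj'
  -- `b1` and `b2` are different from `a3`
  have e3 : b1 ≠ a3 ∧ b2 ≠ a3 := by
    have e1 := H (fun x => if x = a3 then 1 else 0)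
    simp only [h12, h13, h23, if_true, if_false] at e1
    constructor
    · rintro rfl
      simp only [k12.symm, if_true, if_false] at e1
      omega
    · rintro rfl
      simp only [k12, if_true, if_false] at e1
      omega
  have e2 : b1 ≠ a2 ∧ b3 ≠ a2 := by
    have e1 := H (fun x => if x = a2 then 1 else 0)
    simp only [h12, h13, h23.symm, if_true, if_false] at e1
    constructor
    · rintro rfl
      simp only [k13.symm, if_true, if_false] at e1
      omega
    · rintro rfl
      simp only [k13, if_true, if_false] at e1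
      omega
  have e4 : b2 ≠ a1 ∧ b3 ≠ a1 := by
    have e1 := H (fun x => if x = a1 then 1 else 0)
    simp only [h12.symm, h13.symm, if_true, if_false] at e1
    constructor
    · rintro rfl
      simp only [k12, k23.symm, if_true, if_false] at e1
      omega
    · rintro rfl
      simp only [k13, k23, if_true, if_false] at e1
      omega
  have f1 : b1 = a1 := by
    by_contra hne
    have e1 := H (fun x => if x = b1 ∨ x = a3 then 1 else 0)
    simp only [k12.symm, k13.symm, Ne.symm hne, h12, h13, h23, e3.1, e3.2, e2.1.symm, e2.2,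
      e3.1.symm, if_true, if_false, true_or, or_true, or_false, or_self] at e1
    omega
  have f2 : b2 = a2 := by
    by_contra hne
    have e1 := H (fun x => if x = b2 ∨ x = a3 then 1 else 0)
    simp only [k12, k23.symm, Ne.symm hne, h12, h13, h23, e3.1, e3.2, e4.1.symm,
      if_true, if_false, true_or, or_true, or_false, or_self] at e1
    omega
  have f3 : b3 = a3 := by
    by_contra hne
    have e1 := H (fun x => if x = b3 ∨ x = a2 then 1 else 0)
    simp only [k13, k23, Ne.symm hne, h12, h13, h23.symm, e2.1, f2, e4.2.symm,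
      if_true, if_false, true_or, or_true, or_false, or_self] at e1
    omega
  exact ⟨f1, f2, f3, rfl, rfl⟩

end Pool.Agent.MP8b9
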