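import Pool.Agent.Lib.MP_8b9ec4_lc.Defs

/-!
# Naively Haar null sets and Cantor covers
-/

namespace Pool.Agent.MP8b9

open Set Topology TopologicalSpace MeasureTheory

/-- A colouring of the group by natural numbers and a sequence of continuous images of the Cantor
space such that every two-sided translate of the `n`-th map takes colour `n` only countably
often. -/
def CantorCover (G : Type*) [Group G] [TopologicalSpace G] : Prop :=
  ∃ (σ : ℕ → (ℕ → Bool) → G) (c : G → ℕ), (∀ n, Continuous (σ n)) ∧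
    ∀ n g h, {x | c (g * σ n x * h) = n}.Countable

/-- There is a probability measure on the Cantor space for which countable sets are null. -/
theorem exists_measure_cantor :
    ∃ ν : Measure (ℕ → Bool), IsProbabilityMeasure ν ∧
      ∀ S : Set (ℕ → Bool), S.Countable → ν S = 0 := by
  have hunc : ¬ Countable (ℕ → Bool) := by
    intro h
    have h1 : Cardinal.mk (ℕ → Bool) ≤ Cardinal.aleph0 := Cardinal.mk_le_aleph0_iff.2 h
    have h2 : Cardinal.mk (ℕ → Bool) = Cardinal.continuum := by
      rw [← Cardinal.power_def, Cardinal.mk_bool, Cardinal.mk_nat, Cardinal.two_power_aleph0]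
    rw [h2] at h1
    exact absurd h1 (not_le.2 Cardinal.aleph0_lt_continuum)
  have hunc' : ¬ Countable ℝ := by
    intro h
    exact (Cardinal.not_countable_real) (by
      have : (univ : Set ℝ).Countable := countable_univ
      exact this)
  let e : ℝ ≃ᵐ (ℕ → Bool) := PolishSpace.measurableEquivOfNotCountable hunc' hunc
  refine ⟨(volume.restrict (Icc (0 : ℝ) 1)).map e, ?_, ?_⟩
  · have : IsProbabilityMeasure (volume.restrict (Icc (0 : ℝ) 1)) := by
      constructor
      simp
    exact Measure.isProbabilityMeasure_map e.measurable.aemeasurable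
  · intro S hS
    rw [e.map_apply]
    have : (e ⁻¹' S).Countable := hS.preimage e.injective
    exact this.measure_zero _

/-- A Cantor cover yields a cover of the group by countably many naively Haar null sets. -/
theorem CantorCover.exists_cover {G : Type*} [Group G] [TopologicalSpace G] [T2Space G]
    [MeasurableSpace G] [BorelSpace G] (hG : CantorCover G) :
    ∃ X : ℕ → Set G, (∀ n, NaivelyHaarNull (X n)) ∧ (⋃ n, X n) = univ := by
  obtain ⟨σ, c, hσ, hc⟩ := hG
  obtain ⟨ν, hν, hν0⟩ := exists_measure_cantor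
  refine ⟨fun n => {y | c y = n}, fun n => ⟨ν.map (σ n), ?_, fun g h => ?_⟩, ?_⟩
  · exact Measure.isProbabilityMeasure_map (hσ n).measurable.aemeasurable
  · set E : Set G := (fun x => g * x * h) '' {y | c y = n} with hE
    have hS : (σ n ⁻¹' E).Countable := by
      refine (hc n g⁻¹ h⁻¹).mono ?_
      rintro x ⟨y, hy, hyx⟩
      have : g⁻¹ * σ n x * h⁻¹ = y := by
        rw [← hyx]; group
      change c (g⁻¹ * σ n x * h⁻¹) = n
      rw [this]; exact hy
    have hR : IsClosed (range (σ n)) := (isCompact_range (hσ n)).isClosed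
    have hsub : E ⊆ (σ n '' (σ n ⁻¹' E)) ∪ (range (σ n))ᶜ := by
      intro y hy
      by_cases h : y ∈ range (σ n)
      · obtain ⟨x, rfl⟩ := h
        exact Or.inl ⟨x, hy, rfl⟩
      · exact Or.inr h
    refine measure_mono_null hsub (measure_union_null ?_ ?_)
    · rw [Measure.map_apply (hσ n).measurable (hS.image _).measurableSet]
      refine hν0 _ (hS.mono ?_)
      rintro x ⟨y, hy, hyx⟩
      change σ n x ∈ E
      rw [← hyx]; exact hy
    · rw [Measure.map_apply (hσ n).measurable hR.measurableSet.compl]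
      convert hν0 ∅ countable_empty
      ext x; simp
  · ext y; simp

/-- The form in which the results are stated. -/
theorem CantorCover.exists_union {G : Type*} [Group G] [TopologicalSpace G] [T2Space G]
    [MeasurableSpace G] [BorelSpace G] (hG : CantorCover G)
    (hu : ¬ NaivelyHaarNull (univ : Set G)) :
    ∃ X : ℕ → Set G, (∀ n, NaivelyHaarNull (X n)) ∧ (⋃ n, X n) = univ ∧
      ¬ NaivelyHaarNull (⋃ n, X n) := by
  obtain ⟨X, hX, hXu⟩ := hG.exists_cover
  exact ⟨X, hX, hXu, by rw [hXu]; exact hu⟩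

/-- The whole group is not naively Haar null. -/
theorem not_naivelyHaarNull_univ {G : Type*} [Group G] [MeasurableSpace G] :
    ¬ NaivelyHaarNull (univ : Set G) := by
  rintro ⟨μ, hμ, h⟩
  have h1 := h 1 1
  have h2 : ((fun x : G => 1 * x * 1) '' univ) = univ := by
    ext x; simp
  rw [h2] at h1
  simp at h1

/-- Compactness of the Cantor space: given a neighbourhood of every point, all cylinders of some
length are contained in one of these neighbourhoods. -/
theorem exists_prefix_cover (V : (ℕ → Bool) → Set (ℕ → Bool)) (hV : ∀ x, V x ∈ 𝓝 x) :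
    ∃ N : ℕ, ∀ x : ℕ → Bool, ∃ z, ∀ y : ℕ → Bool, (∀ l < N, x l = y l) → y ∈ V z := by
  by_contra hcon
  push Not at hcon
  choose x hx using hcon
  obtain ⟨a, -, φ, hφ, hφa⟩ := (isCompact_univ (X := ℕ → Bool)).tendsto_subseq
    (x := x) (fun k => mem_univ _)
  have h1 : ∀ k, ∃ y : ℕ → Bool, (∀ l < φ k, x (φ k) l = y l) ∧ y ∉ V a := fun k => hx (φ k) a
  choose y hy hyV using h1
  have hya : Filter.Tendsto y Filter.atTop (𝓝 a) := by
    rw [tendsto_pi_nhds] at hφa ⊢
    intro l
    refine (hφa l).congr' ?_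
    filter_upwards [Filter.eventually_ge_atTop (l + 1)] with k hk
    have h2 := hφ.id_le k
    simp only [id] at h2
    exact hy k l (by omega)
  obtain ⟨k, hk⟩ := (hya.eventually (hV a)).exists
  exact hyV k hk

/-- Continuous maps of the Cantor space lift along open continuous surjections of completely
metrizable spaces. -/
theorem exists_lift {X Y : Type*} [TopologicalSpace X] [IsCompletelyMetrizableSpace X]
    [TopologicalSpace Y] [T2Space Y] {π : X → Y} (hπ : IsOpenQuotientMap π)
    (σ : (ℕ → Bool) → Y) (hσ : Continuous σ) :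
    ∃ τ : (ℕ → Bool) → X, Continuous τ ∧ ∀ x, π (τ x) = σ x := by
  let _ := upgradeIsCompletelyMetrizable X
  -- the approximation step
  have step : ∀ (ε δ : ℝ), 0 < ε → 0 < δ → ∀ f : C(ℕ → Bool, X),
      (∀ x, ∃ z, π z = σ x ∧ dist (f x) z < ε) →
      ∃ f' : C(ℕ → Bool, X), (∀ x, ∃ z, π z = σ x ∧ dist (f' x) z < δ) ∧ dist f f' ≤ ε := by
    intro ε δ hε hδ f hf
    choose z hz1 hz2 using hf
    set V : (ℕ → Bool) → Set (ℕ → Bool) := fun x =>
      {y | σ y ∈ π '' (Metric.ball (z x) δ) ∧ dist (f y) (z x) < ε} with hVdef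
    have hV : ∀ x, V x ∈ 𝓝 x := by
      intro x
      refine IsOpen.mem_nhds ?_ ⟨⟨z x, Metric.mem_ball_self hδ, hz1 x⟩, hz2 x⟩
      refine IsOpen.inter ?_ ?_
      · exact (hπ.isOpenMap _ Metric.isOpen_ball).preimage hσ
      · exact isOpen_lt (f.continuous.dist continuous_const) continuous_const
    obtain ⟨N, hN⟩ := exists_prefix_cover V hV
    choose w hw using hN
    set ext : (Fin N → Bool) → (ℕ → Bool) := fun s l => if h : l < N then s ⟨l, h⟩ else false
      with hext
    set f' : C(ℕ → Bool, X) := ⟨fun x => z (w (ext (fun l : Fin N => x l))), by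
      have h1 : Continuous fun x : ℕ → Bool => (fun l : Fin N => x l) := by fun_prop
      exact (continuous_of_discreteTopology (f := fun s : Fin N → Bool => z (w (ext s)))).comp h1⟩
      with hf'
    have hmem : ∀ x, x ∈ V (w (ext (fun l : Fin N => x l))) := by
      intro x
      refine hw _ x fun l hl => ?_
      simp [hext, hl]
    refine ⟨f', fun x => ?_, ?_⟩
    · obtain ⟨⟨u, hu, hux⟩, -⟩ := hmem x
      refine ⟨u, hux, ?_⟩
      rw [dist_comm]
      exact hu
    · rw [ContinuousMap.dist_le hε.le]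
      intro x
      exact (hmem x).2.le
  -- the first approximation
  have h0 : ∃ f : C(ℕ → Bool, X), ∀ x, ∃ z, π z = σ x ∧ dist (f x) z < 1 := by
    have h1 : ∀ x, ∃ z, π z = σ x := fun x => hπ.surjective (σ x)
    choose z hz using h1
    set V : (ℕ → Bool) → Set (ℕ → Bool) := fun x =>
      {y | σ y ∈ π '' (Metric.ball (z x) 1)} with hVdef
    have hV : ∀ x, V x ∈ 𝓝 x := by
      intro x
      refine IsOpen.mem_nhds ?_ ⟨z x, Metric.mem_ball_self one_pos, hz x⟩
      exact (hπ.isOpenMap _ Metric.isOpen_ball).preimage hσ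
    obtain ⟨N, hN⟩ := exists_prefix_cover V hV
    choose w hw using hN
    set ext : (Fin N → Bool) → (ℕ → Bool) := fun s l => if h : l < N then s ⟨l, h⟩ else false
      with hext
    refine ⟨⟨fun x => z (w (ext (fun l : Fin N => x l))), ?_⟩, fun x => ?_⟩
    · have h1 : Continuous fun x : ℕ → Bool => (fun l : Fin N => x l) := by fun_prop
      exact (continuous_of_discreteTopology (f := fun s : Fin N → Bool => z (w (ext s)))).comp h1
    · have hmem : x ∈ V (w (ext (fun l : Fin N => x l))) := by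
        refine hw _ x fun l hl => ?_
        simp [hext, hl]
      obtain ⟨u, hu, hux⟩ := hmem
      refine ⟨u, hux, ?_⟩
      rw [dist_comm]
      exact hu
  obtain ⟨f0, hf0⟩ := h0
  -- the sequence of approximations
  have hseq : ∃ f : ℕ → C(ℕ → Bool, X), ∀ k, (∀ x, ∃ z, π z = σ x ∧ dist (f k x) z < (1 / 2) ^ k) ∧
      dist (f k) (f (k + 1)) ≤ (1 / 2) ^ k := by
    have hs : ∀ (k : ℕ) (f : {f : C(ℕ → Bool, X) //
        ∀ x, ∃ z, π z = σ x ∧ dist (f x) z < (1 / 2 : ℝ) ^ k}),
        ∃ f' : {f : C(ℕ → Bool, X) // ∀ x, ∃ z, π z = σ x ∧ dist (f x) z < (1 / 2 : ℝ) ^ (k + 1)},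
          dist f.1 f'.1 ≤ (1 / 2) ^ k := by
      intro k f
      obtain ⟨f', h1, h2⟩ := step ((1 / 2) ^ k) ((1 / 2) ^ (k + 1)) (by positivity) (by positivity)
        f.1 f.2
      exact ⟨⟨f', h1⟩, h2⟩
    choose g hg using hs
    set F : (k : ℕ) → {f : C(ℕ → Bool, X) //
        ∀ x, ∃ z, π z = σ x ∧ dist (f x) z < (1 / 2 : ℝ) ^ k} :=
      fun k => Nat.rec ⟨f0, by simpa using hf0⟩ (fun k f => g k f) k with hF
    exact ⟨fun k => (F k).1, fun k => ⟨(F k).2, hg k (F k)⟩⟩
  obtain ⟨f, hf⟩ := hseq
  have hcau : CauchySeq f := by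
    refine cauchySeq_of_le_geometric (1 / 2) 1 (by norm_num) fun k => ?_
    rw [one_mul]
    exact (hf k).2
  obtain ⟨τ, hτ⟩ := cauchySeq_tendsto_of_complete hcau
  refine ⟨τ, τ.continuous, fun x => ?_⟩
  have hτx : Filter.Tendsto (fun k => f k x) Filter.atTop (𝓝 (τ x)) :=
    ((continuous_eval_const (F := C(ℕ → Bool, X)) x).tendsto τ).comp hτ
  have h1 : ∀ k, ∃ z, π z = σ x ∧ dist (f k x) z < (1 / 2 : ℝ) ^ k := fun k => (hf k).1 x
  choose z hz hz' using h1
  have hzx : Filter.Tendsto z Filter.atTop (𝓝 (τ x)) := by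
    refine (tendsto_iff_of_dist (f₁ := fun k => f k x) ?_).1 hτx
    refine squeeze_zero (fun k => dist_nonneg) (fun k => (hz' k).le) ?_
    exact tendsto_pow_atTop_nhds_zero_of_lt_one (by norm_num) (by norm_num)
  have h2 : Filter.Tendsto (fun k => π (z k)) Filter.atTop (𝓝 (π (τ x))) :=
    (hπ.continuous.tendsto _).comp hzx
  simp only [hz] at h2
  exact (tendsto_nhds_unique tendsto_const_nhds h2).symm

/-- Cantor covers lift from quotients. -/
theorem CantorCover.of_quotient {G H : Type*} [Group G] [TopologicalSpace G]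
    [IsCompletelyMetrizableSpace G] [Group H] [TopologicalSpace H] [T2Space H] (π : G →* H)
    (hπ : IsOpenQuotientMap π) (hH : CantorCover H) : CantorCover G := by
  obtain ⟨σ, c, hσ, hc⟩ := hH
  have h1 : ∀ n, ∃ τ : (ℕ → Bool) → G, Continuous τ ∧ ∀ x, π (τ x) = σ n x := fun n =>
    exists_lift hπ (σ n) (hσ n)
  choose τ hτ hτσ using h1
  refine ⟨τ, fun g => c (π g), hτ, fun n g h => ?_⟩
  simp only [map_mul, hτσ]
  exact hc n (π g) (π h)

end Pool.Agent.MP8b9
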