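import Mathlib

/-!
# A Mycielski type theorem

In a nonempty completely metrizable space `Y` let countably many closed relations `F k` of finite
arities be given, each with empty interior.  Then there is a continuous map from the Cantor space
to `Y` such that no injective tuple of the Cantor space is mapped to an element of `F k`.
-/

namespace Pool.Agent.MP8b9

open Set Topology TopologicalSpace

section

variable {Y : Type*} [TopologicalSpace Y]

/-- evaluation of a continuous map at a tuple -/
def evalTuple (m : ℕ) (σ : C(ℕ → Bool, Y)) : C(Fin m → (ℕ → Bool), Fin m → Y) :=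
  ⟨fun x i => σ (x i), by fun_prop⟩

theorem continuous_evalTuple (m : ℕ) :
    Continuous (evalTuple m : C(ℕ → Bool, Y) → C(Fin m → (ℕ → Bool), Fin m → Y)) := by
  refine ContinuousMap.continuous_of_continuous_uncurry _ ?_
  refine continuous_pi fun i => ?_
  change Continuous fun p : C(ℕ → Bool, Y) × (Fin m → (ℕ → Bool)) => p.1 (p.2 i)
  fun_prop

/-- tuples whose prefixes of length `n` are distinct -/
def sepTuples (m n : ℕ) : Set (Fin m → (ℕ → Bool)) :=
  {x | ∀ i j, i ≠ j → ∃ l : Fin n, x i l ≠ x j l}

theorem isClosed_sepTuples (m n : ℕ) : IsClosed (sepTuples m n) := by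
  have : sepTuples m n = ⋂ i, ⋂ j, ⋂ (_ : i ≠ j), ⋃ l : Fin n, {x | x i l ≠ x j l} := by
    ext x; simp [sepTuples]
  rw [this]
  refine isClosed_iInter fun i => isClosed_iInter fun j => isClosed_iInter fun _ =>
    isClosed_iUnion_of_finite fun l => ?_
  have : {x : Fin m → (ℕ → Bool) | x i l ≠ x j l} =
      (fun x : Fin m → (ℕ → Bool) => (x i l, x j l)) ⁻¹' {p | p.1 ≠ p.2} := by
    ext x; simp
  rw [this]
  exact (isClosed_discrete _).preimage (by fun_prop)

/-- the set of maps which are good for tuples with distinct prefixes -/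
def goodMaps (m n : ℕ) (F : Set (Fin m → Y)) : Set C(ℕ → Bool, Y) :=
  {σ | ∀ x ∈ sepTuples m n, (fun i => σ (x i)) ∉ F}

theorem isOpen_goodMaps (m n : ℕ) (F : Set (Fin m → Y)) (hF : IsClosed F) :
    IsOpen (goodMaps m n F) := by
  exact (ContinuousMap.isOpen_setOfPred_mapsTo (isClosed_sepTuples m n).isCompact
    hF.isOpen_compl).preimage (continuous_evalTuple (Y := Y) m)

end

section

variable {Y : Type*} [MetricSpace Y] [CompleteSpace Y] [Nonempty Y]

/-- choice of finitely many values avoiding a relation -/
theorem exists_values {S : Type*} [Finite S] (m : ℕ) (F : Set (Fin m → Y)) (hF : IsClosed F)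
    (hF' : interior F = ∅) (U : Set (S → Y)) (hU : IsOpen U) (hne : U.Nonempty) :
    ∃ y ∈ U, ∀ t : Fin m → S, Function.Injective t → (fun i => y (t i)) ∉ F := by
  classical
  have : Fintype S := Fintype.ofFinite S
  set T := {t : Fin m → S // Function.Injective t}
  have hd : Dense (⋂ t : T, {y : S → Y | (fun i => y (t.1 i)) ∉ F}) := by
    refine dense_iInter_of_isOpen (fun t => ?_) fun t => ?_
    · exact hF.isOpen_compl.preimage (f := fun y : S → Y => fun i => y (t.1 i)) (by fun_prop)
    · change Dense ({y : S → Y | (fun i => y (t.1 i)) ∈ F}ᶜ)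
      rw [← interior_eq_empty_iff_dense_compl]
      by_contra hne
      obtain ⟨y0, hy0⟩ := nonempty_iff_ne_empty.2 hne
      set φ : (Fin m → Y) → (S → Y) := fun z s =>
        if h : ∃ i, t.1 i = s then z h.choose else y0 s with hφ
      have hφc : Continuous φ := by
        refine continuous_pi fun s => ?_
        by_cases h : ∃ i, t.1 i = s
        · simp only [hφ, h, dif_pos]
          exact continuous_apply _
        · simp only [hφ, h, dif_neg, not_false_iff]
          exact continuous_const
      have hφt : ∀ z i, φ z (t.1 i) = z i := by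
        intro z i
        have h : ∃ j, t.1 j = t.1 i := ⟨i, rfl⟩
        simp only [hφ, h, dif_pos]
        congr 1
        exact t.2 h.choose_spec
      have hφ0 : φ (fun i => y0 (t.1 i)) = y0 := by
        ext s
        by_cases h : ∃ i, t.1 i = s
        · obtain ⟨i, rfl⟩ := h
          exact hφt (fun i => y0 (t.1 i)) i
        · simp only [hφ, h, dif_neg, not_false_iff]
      have hsub : φ ⁻¹' (interior {y : S → Y | (fun i => y (t.1 i)) ∈ F}) ⊆ F := by
        intro z hz
        have h1 := interior_subset hz
        have h2 : (fun i => φ z (t.1 i)) ∈ F := h1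
        simp only [hφt] at h2
        exact h2
      have hopen : IsOpen (φ ⁻¹' (interior {y : S → Y | (fun i => y (t.1 i)) ∈ F})) :=
        isOpen_interior.preimage hφc
      have := interior_maximal hsub hopen
      rw [hF'] at this
      have h0 : (fun i => y0 (t.1 i)) ∈ φ ⁻¹' (interior {y : S → Y | (fun i => y (t.1 i)) ∈ F}) := by
        rw [mem_preimage, hφ0]
        exact hy0
      exact this h0
  obtain ⟨y, hyU, hy⟩ := hd.inter_open_nonempty U hU hne
  refine ⟨y, hyU, fun t ht => ?_⟩
  have := mem_iInter.1 hy ⟨t, ht⟩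
  exact this

theorem dense_goodMaps (m n : ℕ) (F : Set (Fin m → Y)) (hF : IsClosed F)
    (hF' : interior F = ∅) : Dense (goodMaps m n F) := by
  rw [Metric.dense_iff]
  intro σ ε hε
  -- uniform continuity of `σ`
  have hσ : ∃ N, n ≤ N ∧ ∀ x y : ℕ → Bool, (∀ l < N, x l = y l) → dist (σ x) (σ y) < ε / 3 := by
    by_contra hcon
    push Not at hcon
    have hcon' : ∀ k, ∃ x y : ℕ → Bool, (∀ l < n + k, x l = y l) ∧ ε / 3 ≤ dist (σ x) (σ y) := by
      intro k
      exact hcon (n + k) (by omega)
    choose x y hxy hd using hcon'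
    obtain ⟨a, -, φ, hφ, hφa⟩ := (isCompact_univ (X := ℕ → Bool)).tendsto_subseq
      (x := x) (fun k => mem_univ _)
    have hya : Filter.Tendsto (y ∘ φ) Filter.atTop (𝓝 a) := by
      rw [tendsto_pi_nhds] at hφa ⊢
      intro l
      refine (hφa l).congr' ?_
      filter_upwards [Filter.eventually_ge_atTop (l + 1)] with k hk
      have : l < n + φ k := by
        have := hφ.id_le k
        simp only [id] at this
        omega
      exact hxy (φ k) l this
    have h1 : Filter.Tendsto (fun k => dist (σ (x (φ k))) (σ (y (φ k)))) Filter.atTop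
        (𝓝 (dist (σ a) (σ a))) :=
      ((σ.continuous.tendsto a).comp hφa).dist ((σ.continuous.tendsto a).comp hya)
    rw [dist_self] at h1
    have h2 := ge_of_tendsto' h1 (fun k => hd (φ k))
    linarith
  obtain ⟨N, hnN, hN⟩ := hσ
  set ext : (Fin N → Bool) → (ℕ → Bool) := fun s l => if h : l < N then s ⟨l, h⟩ else false
    with hext
  set U : Set ((Fin N → Bool) → Y) := Set.pi univ fun s => Metric.ball (σ (ext s)) (ε / 3) with hU
  have hUo : IsOpen U := isOpen_set_pi finite_univ fun s _ => Metric.isOpen_ball
  have hUne : U.Nonempty := ⟨fun s => σ (ext s), fun s _ => Metric.mem_ball_self (by linarith)⟩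
  obtain ⟨y, hyU, hy⟩ := exists_values m F hF hF' U hUo hUne
  set τ : C(ℕ → Bool, Y) := ⟨fun x => y (fun l : Fin N => x l), by
    have h1 : Continuous fun x : ℕ → Bool => (fun l : Fin N => x l) := by fun_prop
    exact (continuous_of_discreteTopology (f := y)).comp h1⟩ with hτ
  refine ⟨τ, ?_, ?_⟩
  · rw [Metric.mem_ball, ContinuousMap.dist_lt_iff hε]
    intro x
    have h1 : dist (τ x) (σ (ext fun l : Fin N => x l)) < ε / 3 := hyU _ (mem_univ _)
    have h2 : dist (σ (ext fun l : Fin N => x l)) (σ x) < ε / 3 := by
      refine hN _ _ fun l hl => ?_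
      simp [hext, hl]
    calc dist (τ x) (σ x) ≤ dist (τ x) (σ (ext fun l : Fin N => x l)) +
          dist (σ (ext fun l : Fin N => x l)) (σ x) := dist_triangle _ _ _
      _ < ε := by linarith
  · intro x hx
    refine hy (fun i => fun l : Fin N => x i l) fun i j hij => ?_
    by_contra hne
    obtain ⟨l, hl⟩ := hx i j hne
    refine hl ?_
    have := congrFun hij ⟨l, by omega⟩
    exact this

end

/-- **Mycielski's theorem** for countably many closed relations with empty interior. -/
theorem mycielski {Y : Type*} [TopologicalSpace Y] [IsCompletelyMetrizableSpace Y] [Nonempty Y]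
    {ι : Type*} [Countable ι] (m : ι → ℕ) (F : ∀ k, Set (Fin (m k) → Y)) (hF : ∀ k, IsClosed (F k))
    (hF' : ∀ k, interior (F k) = ∅) :
    ∃ σ : (ℕ → Bool) → Y, Continuous σ ∧ ∀ k, ∀ x : Fin (m k) → (ℕ → Bool),
      Function.Injective x → (fun i => σ (x i)) ∉ F k := by
  let _ := upgradeIsCompletelyMetrizable Y
  have : Nonempty C(ℕ → Bool, Y) := ⟨ContinuousMap.const _ (Classical.arbitrary Y)⟩
  have hd : Dense (⋂ p : ι × ℕ, goodMaps (m p.1) p.2 (F p.1)) :=
    dense_iInter_of_isOpen (fun p => isOpen_goodMaps _ _ _ (hF _))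
      fun p => dense_goodMaps _ _ _ (hF _) (hF' _)
  obtain ⟨σ, hσ⟩ := hd.nonempty
  refine ⟨σ, σ.continuous, fun k x hx => ?_⟩
  -- an injective tuple has distinct prefixes of some length
  have h1 : ∃ n, x ∈ sepTuples (m k) n := by
    have h2 : ∀ p : Fin (m k) × Fin (m k), ∃ l : ℕ, p.1 ≠ p.2 → x p.1 l ≠ x p.2 l := by
      intro p
      by_cases h : p.1 = p.2
      · exact ⟨0, fun h' => absurd h h'⟩
      · have := hx.ne h
        obtain ⟨l, hl⟩ := Function.ne_iff.1 this
        exact ⟨l, fun _ => hl⟩
    choose l hl using h2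
    refine ⟨Finset.univ.sup l + 1, fun i j hij => ?_⟩
    have : l (i, j) ≤ Finset.univ.sup l := Finset.le_sup (Finset.mem_univ (i, j))
    exact ⟨⟨l (i, j), by omega⟩, hl (i, j) hij⟩
  obtain ⟨n, hn⟩ := h1
  exact mem_iInter.1 hσ (k, n) x hn

/-- Every tuple of points of the Cantor space factors through an injective tuple. -/
theorem exists_factor (m : ℕ) (z : Fin m → (ℕ → Bool)) :
    ∃ w : Fin m → (ℕ → Bool), Function.Injective w ∧ ∃ α : Fin m → Fin m, ∀ i, z i = w (α i) := by
  classical
  have hinf : ((range z)ᶜ).Infinite := (finite_range z).infinite_compl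
  let e : ℕ ↪ ((range z)ᶜ : Set (ℕ → Bool)) := hinf.natEmbedding _
  -- the first index with the same value
  have hne : ∀ i, (Finset.univ.filter fun j => z j = z i).Nonempty := fun i => ⟨i, by simp⟩
  set α : Fin m → Fin m := fun i => (Finset.univ.filter fun j => z j = z i).min' (hne i) with hα
  have hzα : ∀ i, z (α i) = z i := by
    intro i
    have := Finset.min'_mem _ (hne i)
    exact (Finset.mem_filter.1 this).2
  have hαz : ∀ i j, z i = z j → α i = α j := by
    intro i j hij
    simp only [hα, hij]
  refine ⟨fun j => if α j = j then z j else (e j.1 : ℕ → Bool), ?_, α, fun i => ?_⟩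
  · intro i j hij
    simp only at hij
    by_cases hi : α i = i
    · by_cases hj : α j = j
      · rw [if_pos hi, if_pos hj] at hij
        rw [← hi, ← hj]
        exact hαz i j hij
      · rw [if_pos hi, if_neg hj] at hij
        exact absurd (mem_range_self (f := z) i) (by rw [hij]; exact (e j.1).2)
    · by_cases hj : α j = j
      · rw [if_neg hi, if_pos hj] at hij
        exact absurd (mem_range_self (f := z) j) (by rw [← hij]; exact (e i.1).2)
      · rw [if_neg hi, if_neg hj] at hij
        exact Fin.ext (e.injective (Subtype.ext hij))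
  · have h1 : α (α i) = α i := hαz _ _ (hzα i)
    simp only [h1, if_true, hzα]

/-- **Mycielski's theorem**, version where the tuples are only required to have an entry which
differs from all others. -/
theorem mycielski_pattern {Y : Type*} [TopologicalSpace Y] [IsCompletelyMetrizableSpace Y]
    [Nonempty Y] {ι : Type*} [Countable ι] (m : ℕ) (F : ι → Set (Fin m → Y)) (i0 : ι → Fin m)
    (hF : ∀ k, IsClosed (F k))
    (hF' : ∀ k (y : Fin m → Y), interior {t | Function.update y (i0 k) t ∈ F k} = ∅) :
    ∃ σ : (ℕ → Bool) → Y, Continuous σ ∧ ∀ k, ∀ z : Fin m → (ℕ → Bool),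
      (∀ i, i ≠ i0 k → z i ≠ z (i0 k)) → (fun i => σ (z i)) ∉ F k := by
  classical
  set J := {p : ι × (Fin m → Fin m) // ∀ i, i ≠ i0 p.1 → p.2 i ≠ p.2 (i0 p.1)} with hJ
  obtain ⟨σ, hσ, h⟩ := mycielski (Y := Y) (ι := J) (fun _ => m)
    (fun p => {y | (fun i => y (p.1.2 i)) ∈ F p.1.1})
    (fun p => (hF p.1.1).preimage (f := fun y : Fin m → Y => fun i => y (p.1.2 i)) (by fun_prop))
    (fun p => by
      by_contra hne
      obtain ⟨y, hy⟩ := nonempty_iff_ne_empty.2 hne
      set V := interior {y : Fin m → Y | (fun i => y (p.1.2 i)) ∈ F p.1.1} with hV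
      have hopen : IsOpen {t | Function.update y (p.1.2 (i0 p.1.1)) t ∈ V} :=
        isOpen_interior.preimage (by fun_prop)
      have hsub : {t | Function.update y (p.1.2 (i0 p.1.1)) t ∈ V} ⊆
          {t | Function.update (fun i => y (p.1.2 i)) (i0 p.1.1) t ∈ F p.1.1} := by
        intro t ht
        have h0 : Function.update y (p.1.2 (i0 p.1.1)) t ∈
            {y : Fin m → Y | (fun i => y (p.1.2 i)) ∈ F p.1.1} := interior_subset ht
        have h1 : (fun i => Function.update y (p.1.2 (i0 p.1.1)) t (p.1.2 i)) ∈ F p.1.1 := h0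
        have h2 : (fun i => Function.update y (p.1.2 (i0 p.1.1)) t (p.1.2 i)) =
            Function.update (fun i => y (p.1.2 i)) (i0 p.1.1) t := by
          ext i
          by_cases hi : i = i0 p.1.1
          · rw [hi]; simp
          · rw [Function.update_of_ne (p.2 i hi), Function.update_of_ne hi]
        rw [h2] at h1
        exact h1
      have h3 := interior_maximal hsub hopen
      rw [hF'] at h3
      have h4 : y (p.1.2 (i0 p.1.1)) ∈ {t | Function.update y (p.1.2 (i0 p.1.1)) t ∈ V} := by
        change Function.update y (p.1.2 (i0 p.1.1)) (y (p.1.2 (i0 p.1.1))) ∈ V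
        rw [Function.update_eq_self]
        exact hy
      exact h3 h4)
  refine ⟨σ, hσ, fun k z hz => ?_⟩
  obtain ⟨w, hw, α, hα⟩ := exists_factor m z
  have h1 : ∀ i, i ≠ i0 k → α i ≠ α (i0 k) := by
    intro i hi heq
    exact hz i hi (by rw [hα, hα (i0 k), heq])
  have h2 := h ⟨(k, α), h1⟩ w hw
  intro h3
  refine h2 ?_
  change (fun i => σ (w (α i))) ∈ F k
  simpa only [hα] using h3

/-- Countably many disjoint copies of the Cantor space in itself. -/
def code (n : ℕ) (x : ℕ → Bool) : ℕ → Bool := fun j =>
  if j < n then false else if j = n then true else x (j - n - 1)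

theorem continuous_code (n : ℕ) : Continuous (code n) := by
  refine continuous_pi fun j => ?_
  unfold code
  by_cases h1 : j < n
  · simp only [h1, if_true]; exact continuous_const
  · by_cases h2 : j = n
    · simp only [h2, lt_irrefl, if_false, if_true]; exact continuous_const
    · simp only [h1, h2, if_false]; exact continuous_apply _

theorem code_injective (n : ℕ) : Function.Injective (code n) := by
  intro x y hxy
  ext l
  have := congrFun hxy (l + n + 1)
  have e1 : l + n + 1 - n - 1 = l := by omega
  simpa [code, show ¬ (l + n + 1 < n) by omega, show ¬ (l + n + 1 = n) by omega, e1] using this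

theorem code_ne_of_lt {n m : ℕ} (h : n < m) (x y : ℕ → Bool) : code n x ≠ code m y := by
  intro hxy
  have := congrFun hxy n
  simp [code, h] at this

theorem code_ne {n m : ℕ} (h : n ≠ m) (x y : ℕ → Bool) : code n x ≠ code m y := by
  rcases lt_or_gt_of_ne h with h | h
  · exact code_ne_of_lt h x y
  · exact (code_ne_of_lt h y x).symm

end Pool.Agent.MP8b9
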