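import Pool.Agent.Lib.MP_8b9ec4_lc.Basic
import Pool.Agent.Lib.MP_8b9ec4_lc.Myc

/-!
# Groups with an increasing chain of closed normal subgroups
-/

namespace Pool.Agent.MP8b9

open Set Topology TopologicalSpace

/-- In a second countable group a subgroup one of whose cosets has an interior point has countable
index. -/
theorem countable_quotient_of_interior {H : Type*} [Group H] [TopologicalSpace H]
    [IsTopologicalGroup H] [SecondCountableTopology H] (K : Subgroup H) (a : H)
    (h : (interior {t | t⁻¹ * a ∈ K}).Nonempty) : Countable (H ⧸ K) := by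
  obtain ⟨b, hb⟩ := h
  have hK : IsOpen (K : Set H) := by
    refine Subgroup.isOpen_of_mem_nhds K (g := 1) ?_
    have h1 : ((fun t : H => b * t) ⁻¹' (interior {t | t⁻¹ * a ∈ K})) ∈ 𝓝 (1 : H) := by
      refine (isOpen_interior.preimage (by fun_prop)).mem_nhds ?_
      simpa using hb
    refine Filter.mem_of_superset h1 fun t ht => ?_
    have h2' : b * t ∈ {t | t⁻¹ * a ∈ K} := interior_subset ht
    have h3' : b ∈ {t | t⁻¹ * a ∈ K} := interior_subset hb
    have h2 : (b * t)⁻¹ * a ∈ K := h2'
    have h3 : b⁻¹ * a ∈ K := h3'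
    have h4 : t⁻¹ = ((b * t)⁻¹ * a) * (b⁻¹ * a)⁻¹ := by group
    have h5 : t⁻¹ ∈ K := by
      rw [h4]; exact K.mul_mem h2 (K.inv_mem h3)
    exact (inv_mem_iff (H := K)).1 h5
  have : DiscreteTopology (H ⧸ K) := by
    rw [QuotientGroup.discreteTopology_iff]
    exact hK
  exact TopologicalSpace.separableSpace_iff_countable.1 inferInstance

/-- Groups with an increasing chain of closed normal subgroups, each of uncountable index in the
next one, have a Cantor cover. -/
theorem CantorCover.of_chain {G : Type*} [Group G] [TopologicalSpace G] [IsTopologicalGroup G]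
    [PolishSpace G] (N : ℕ → Subgroup G) (hnormal : ∀ n, (N n).Normal)
    (hclosed : ∀ n, IsClosed (N n : Set G)) (hmono : ∀ n, N n ≤ N (n + 1))
    (hidx : ∀ n, ¬ Countable (N (n + 1) ⧸ (N n).subgroupOf (N (n + 1)))) : CantorCover G := by
  classical
  -- Cantor sets
  have h1 : ∀ n, ∃ τ : (ℕ → Bool) → G, Continuous τ ∧ (∀ x, τ x ∈ N (n + 1)) ∧
      ∀ x y, x ≠ y → (τ x)⁻¹ * τ y ∉ N n := by
    intro n
    have : PolishSpace (N (n + 1)) := (hclosed (n + 1)).polishSpace
    obtain ⟨σ, hσ, h⟩ := mycielski_pattern (Y := N (n + 1)) (ι := Unit) 2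
      (fun _ => {y | (y 0)⁻¹ * y 1 ∈ (N n).subgroupOf (N (n + 1))}) (fun _ => 0)
      (fun _ => by
        have : IsClosed ((N n).subgroupOf (N (n + 1)) : Set (N (n + 1))) :=
          (hclosed n).preimage continuous_subtype_val
        exact this.preimage (f := fun y : Fin 2 → N (n + 1) => (y 0)⁻¹ * y 1) (by fun_prop))
      (fun _ y => by
        by_contra hne
        refine hidx n (countable_quotient_of_interior _ (y 1) ?_)
        have h2 := nonempty_iff_ne_empty.2 hne
        have h3 : {t | t⁻¹ * y 1 ∈ (N n).subgroupOf (N (n + 1))} =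
            {t | Function.update y 0 t ∈ {y : Fin 2 → N (n + 1) |
              (y 0)⁻¹ * y 1 ∈ (N n).subgroupOf (N (n + 1))}} := by
          ext t
          simp [Function.update_self]
        rw [h3]
        exact h2)
    refine ⟨fun x => σ x, continuous_subtype_val.comp hσ, fun x => (σ x).2, fun x y hxy hmem => ?_⟩
    refine h () ![x, y] ?_ ?_
    · intro i hi
      fin_cases i
      · exact absurd rfl hi
      · exact hxy.symm
    · exact hmem
  choose τ hτ hτN hτn using h1
  -- the union of the chain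
  have hmono' : Monotone N := monotone_nat_of_le_succ hmono
  set S : Subgroup G := ⨆ n, N n with hS
  have hmemS : ∀ x, x ∈ S ↔ ∃ n, x ∈ N n := fun x =>
    Subgroup.mem_iSup_of_directed hmono'.directed_le
  set r : G → G := fun x => Quotient.out (x : G ⧸ S) with hr
  have hr1 : ∀ x, ∃ n, (r x)⁻¹ * x ∈ N n := by
    intro x
    rw [← hmemS, ← QuotientGroup.eq]
    simp [hr]
  refine ⟨τ, fun x => Nat.find (hr1 x), hτ, fun n g h => ?_⟩
  refine Set.Subsingleton.countable ?_
  intro x hx y hy
  by_contra hne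
  refine hτn n x y hne ?_
  have hconj : ∀ k, h⁻¹ * ((τ n x)⁻¹ * τ n y) * h ∈ N k → (τ n x)⁻¹ * τ n y ∈ N k := by
    intro k hk
    have := (hnormal k).conj_mem _ hk h
    convert this using 1
    group
  have hxy : h⁻¹ * ((τ n x)⁻¹ * τ n y) * h ∈ N (n + 1) := by
    have h2 : (τ n x)⁻¹ * τ n y ∈ N (n + 1) :=
      (N (n + 1)).mul_mem ((N (n + 1)).inv_mem (hτN n x)) (hτN n y)
    have := (hnormal (n + 1)).conj_mem _ h2 h⁻¹
    simpa using this
  have hreq : r (g * τ n x * h) = r (g * τ n y * h) := by
    have h3 : ((g * τ n x * h : G) : G ⧸ S) = ((g * τ n y * h : G) : G ⧸ S) := by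
      rw [QuotientGroup.eq, hmemS]
      refine ⟨n + 1, ?_⟩
      convert hxy using 1
      group
    simp only [hr, h3]
  have hx' : (r (g * τ n x * h))⁻¹ * (g * τ n x * h) ∈ N n := by
    have h4 := Nat.find_spec (hr1 (g * τ n x * h))
    have h5 : Nat.find (hr1 (g * τ n x * h)) = n := hx
    rw [h5] at h4
    exact h4
  have hy' : (r (g * τ n y * h))⁻¹ * (g * τ n y * h) ∈ N n := by
    have h4 := Nat.find_spec (hr1 (g * τ n y * h))
    have h5 : Nat.find (hr1 (g * τ n y * h)) = n := hy
    rw [h5] at h4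
    exact h4
  refine hconj n ?_
  have h6 := (N n).mul_mem ((N n).inv_mem hx') hy'
  rw [hreq] at h6
  convert h6 using 1
  group

end Pool.Agent.MP8b9
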