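import Mathlib

/-!
# A colouring theorem in the style of Davies

`Q` is a set of points, `𝓛 n` is a family of lines of type `n`.  To every finite set `s` of
points and every type `n` countably many lines `Λ n s` of type `n` are attached, such that every
infinite subset `M` of a line of type `n` is contained in a line of `Λ n s` for a finite
`s ⊆ M`.  Lines of distinct types meet in countable sets.  Then the points can be coloured by the
natural numbers so that every line of type `n` has only finitely many points of colour `n`.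
-/

namespace Pool.Agent.MP8b9

open Cardinal Set

universe u

variable {Q : Type u} (𝓛 : ℕ → Set (Set Q)) (Λ : ℕ → Finset Q → Set (Set Q))

/-- `X` contains all intersections of lines of distinct types that are attached to
finite subsets of `X`. -/
def ClosedUnder (X : Set Q) : Prop :=
  ∀ s s' : Finset Q, (s : Set Q) ⊆ X → (s' : Set Q) ⊆ X → ∀ n m, n ≠ m →
    ∀ L ∈ Λ n s, ∀ L' ∈ Λ m s', L ∩ L' ⊆ X

/-- The closure of a set of points. -/
def cl (S : Set Q) : Set Q := ⋂₀ {X | ClosedUnder Λ X ∧ S ⊆ X}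

theorem subset_cl (S : Set Q) : S ⊆ cl Λ S := by
  intro x hx
  simp only [cl, mem_sInter]
  exact fun X hX => hX.2 hx

theorem cl_subset {S X : Set Q} (hX : ClosedUnder Λ X) (h : S ⊆ X) : cl Λ S ⊆ X :=
  sInter_subset_of_mem ⟨hX, h⟩

theorem closedUnder_cl (S : Set Q) : ClosedUnder Λ (cl Λ S) := by
  intro s s' hs hs' n m hnm L hL L' hL' x hx
  simp only [cl, mem_sInter]
  intro X hX
  have h1 : cl Λ S ⊆ X := cl_subset Λ hX.1 hX.2
  exact hX.1 s s' (hs.trans h1) (hs'.trans h1) n m hnm L hL L' hL' hx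

theorem cl_mono {S T : Set Q} (h : S ⊆ T) : cl Λ S ⊆ cl Λ T :=
  cl_subset Λ (closedUnder_cl Λ T) (h.trans (subset_cl Λ T))

/-- the points determined by two finite sets of points -/
def newPts (p : Finset Q × Finset Q) : Set Q :=
  {x | ∃ n m, n ≠ m ∧ ∃ L ∈ Λ n p.1, ∃ L' ∈ Λ m p.2, x ∈ L ∩ L'}

theorem newPts_countable
    (hΛL : ∀ n s, Λ n s ⊆ 𝓛 n)
    (hΛc : ∀ n s, (Λ n s).Countable)
    (hB : ∀ n m, n ≠ m → ∀ L ∈ 𝓛 n, ∀ L' ∈ 𝓛 m, (L ∩ L').Countable) (p : Finset Q × Finset Q) :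
    (newPts Λ p).Countable := by
  have key : newPts Λ p ⊆ ⋃ (n : ℕ), ⋃ (m : ℕ), ⋃ (_ : n ≠ m),
      ⋃ L ∈ Λ n p.1, ⋃ L' ∈ Λ m p.2, (L ∩ L') := by
    rintro x ⟨n, m, hnm, L, hL, L', hL', hx⟩
    simp only [mem_iUnion]
    exact ⟨n, m, hnm, L, hL, L', hL', hx⟩
  refine Countable.mono key ?_
  refine countable_iUnion fun n => countable_iUnion fun m => countable_iUnion fun hnm => ?_
  refine (hΛc n _).biUnion fun L hL => ?_
  refine (hΛc m _).biUnion fun L' hL' => ?_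
  exact hB n m hnm L (hΛL _ _ hL) L' (hΛL _ _ hL')

open Classical in
/-- one step of the closure -/
noncomputable def step (T : Set Q) : Set Q :=
  T ∪ ⋃ p : List T × List T, newPts Λ ((p.1.map Subtype.val).toFinset,
    (p.2.map Subtype.val).toFinset)

theorem mk_step_le
    (hΛL : ∀ n s, Λ n s ⊆ 𝓛 n)
    (hΛc : ∀ n s, (Λ n s).Countable)
    (hB : ∀ n m, n ≠ m → ∀ L ∈ 𝓛 n, ∀ L' ∈ 𝓛 m, (L ∩ L').Countable)
    (T : Set Q) (κ : Cardinal.{u}) (hκ : ℵ₀ ≤ κ) (hT : #T ≤ κ) : #(step Λ T) ≤ κ := by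
  classical
  have h3 : #(List T) ≤ κ := (mk_list_le_max T).trans (max_le hκ hT)
  have h4 : #(List T × List T) ≤ κ := by
    simp only [mk_prod, lift_id]
    calc #(List T) * #(List T) ≤ κ * κ := by gcongr
      _ = κ := mul_eq_self hκ
  have h5 : #(⋃ p : List T × List T, newPts Λ ((p.1.map Subtype.val).toFinset,
      (p.2.map Subtype.val).toFinset)) ≤ κ := by
    refine (mk_iUnion_le_sum_mk).trans ?_
    calc Cardinal.sum (fun p : List T × List T => #(newPts Λ ((p.1.map Subtype.val).toFinset,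
            (p.2.map Subtype.val).toFinset)))
        ≤ Cardinal.sum (fun p : List T × List T => (ℵ₀ : Cardinal.{u})) := by
          refine Cardinal.sum_le_sum _ _ fun p => ?_
          exact (newPts_countable 𝓛 Λ hΛL hΛc hB _).le_aleph0
      _ = #(List T × List T) * ℵ₀ := by simp
      _ ≤ κ * κ := by gcongr
      _ = κ := mul_eq_self hκ
  calc #(step Λ T) ≤ #T + #(⋃ p : List T × List T, newPts Λ ((p.1.map Subtype.val).toFinset,
      (p.2.map Subtype.val).toFinset)) := mk_union_le _ _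
    _ ≤ κ + κ := by gcongr
    _ = κ := add_eq_self hκ

theorem exists_list_of_subset (T : Set Q) (s : Finset Q) (hs : (s : Set Q) ⊆ T) :
    ∃ l : List T, ∀ x, x ∈ l.map Subtype.val ↔ x ∈ s := by
  classical
  refine ⟨s.toList.attach.map fun x => ⟨x.1, hs (by simpa using x.2)⟩, fun x => ?_⟩
  simp

theorem mk_cl_le
    (hΛL : ∀ n s, Λ n s ⊆ 𝓛 n)
    (hΛc : ∀ n s, (Λ n s).Countable)
    (hB : ∀ n m, n ≠ m → ∀ L ∈ 𝓛 n, ∀ L' ∈ 𝓛 m, (L ∩ L').Countable)
    (S : Set Q) (κ : Cardinal.{u}) (hκ : ℵ₀ ≤ κ) (hS : #S ≤ κ) : #(cl Λ S) ≤ κ := by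
  classical
  set T : ℕ → Set Q := fun k => (step Λ)^[k] S with hT
  have hTk : ∀ k, #(T k) ≤ κ := by
    intro k
    induction k with
    | zero => simpa [hT] using hS
    | succ k ih =>
      have : T (k + 1) = step Λ (T k) := by simp only [hT, Function.iterate_succ_apply']
      rw [this]
      exact mk_step_le 𝓛 Λ hΛL hΛc hB _ κ hκ ih
  have hmono : Monotone T := by
    refine monotone_nat_of_le_succ fun k => ?_
    have : T (k + 1) = step Λ (T k) := by simp only [hT, Function.iterate_succ_apply']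
    rw [this]
    exact subset_union_left
  have hfin : ∀ s : Finset Q, (s : Set Q) ⊆ ⋃ k, T k → ∃ k, (s : Set Q) ⊆ T k := by
    intro s hs
    induction s using Finset.induction_on with
    | empty => exact ⟨0, by simp⟩
    | insert a s ha ih =>
      rw [Finset.coe_insert, insert_subset_iff] at hs
      obtain ⟨k, hk⟩ := ih hs.2
      obtain ⟨l, hl⟩ := mem_iUnion.1 hs.1
      refine ⟨max k l, ?_⟩
      rw [Finset.coe_insert, insert_subset_iff]
      exact ⟨hmono (le_max_right _ _) hl, hk.trans (hmono (le_max_left _ _))⟩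
  have hcl : ClosedUnder Λ (⋃ k, T k) := by
    intro s s' hs hs' n m hnm L hL L' hL' x hx
    obtain ⟨k1, h1⟩ := hfin s hs
    obtain ⟨k2, h2⟩ := hfin s' hs'
    set k := max k1 k2 with hk
    have e1 : (s : Set Q) ⊆ T k := h1.trans (hmono (le_max_left _ _))
    have e2 : (s' : Set Q) ⊆ T k := h2.trans (hmono (le_max_right _ _))
    refine mem_iUnion.2 ⟨k + 1, ?_⟩
    have : T (k + 1) = step Λ (T k) := by simp only [hT, Function.iterate_succ_apply']
    rw [this]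
    obtain ⟨l, hl⟩ := exists_list_of_subset (T k) s e1
    obtain ⟨l', hl'⟩ := exists_list_of_subset (T k) s' e2
    refine Or.inr (mem_iUnion.2 ⟨(l, l'), ?_⟩)
    have el : (l.map Subtype.val).toFinset = s := by
      ext y; rw [List.mem_toFinset]; exact hl y
    have el' : (l'.map Subtype.val).toFinset = s' := by
      ext y; rw [List.mem_toFinset]; exact hl' y
    change x ∈ newPts Λ ((l.map Subtype.val).toFinset, (l'.map Subtype.val).toFinset)
    rw [el, el']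
    exact ⟨n, m, hnm, L, hL, L', hL', hx⟩
  have hsub : S ⊆ ⋃ k, T k := fun x hx => mem_iUnion.2 ⟨0, by simpa [hT] using hx⟩
  calc #(cl Λ S) ≤ #(⋃ k, T k) := mk_le_mk_of_subset (cl_subset Λ hcl hsub)
    _ ≤ κ := by
      have h := mk_iUnion_le_sum_mk (f := fun k : ULift.{u} ℕ => T k.down)
      have e : (⋃ k : ULift.{u} ℕ, T k.down) = ⋃ k, T k := by
        ext x; simp
      rw [e] at h
      refine h.trans ?_
      calc Cardinal.sum (fun k : ULift.{u} ℕ => #(T k.down))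
          ≤ Cardinal.sum (fun k : ULift.{u} ℕ => κ) := Cardinal.sum_le_sum _ _ fun k => hTk _
        _ = ℵ₀ * κ := by simp
        _ ≤ κ * κ := by gcongr
        _ = κ := mul_eq_self hκ

/-- The countable case. -/
theorem color_countable
    (hΛc : ∀ n s, (Λ n s).Countable)
    (hA : ∀ n, ∀ L ∈ 𝓛 n, ∀ M : Set Q, M ⊆ L → M.Infinite →
      ∃ s : Finset Q, (s : Set Q) ⊆ M ∧ ∃ L' ∈ Λ n s, M ⊆ L')
    (X : Set Q) (hX : X.Countable) (F : Q → Set ℕ) (hF : ∀ x, (F x).Finite) :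
    ∃ c : Q → ℕ, (∀ x ∈ X, c x ∉ F x) ∧ ∀ n, ∀ L ∈ 𝓛 n, {x | x ∈ X ∧ x ∈ L ∧ c x = n}.Finite := by
  set Θ : Set (ℕ × Set Q) := {p | ∃ s : Finset Q, (s : Set Q) ⊆ X ∧ p.2 ∈ Λ p.1 s} with hΘ
  have hfs : {s : Finset Q | (s : Set Q) ⊆ X}.Countable := by
    have h1 := countable_ofPred_finite_subset hX
    refine (h1.preimage (f := fun s : Finset Q => (s : Set Q)) ?_).mono ?_
    · exact Finset.coe_injective
    · intro s hs
      exact ⟨s.finite_toSet, hs⟩
  have hΘc : Θ.Countable := by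
    have : Θ ⊆ ⋃ (n : ℕ), ⋃ s ∈ {s : Finset Q | (s : Set Q) ⊆ X},
        (fun L => (n, L)) '' (Λ n s) := by
      rintro ⟨n, L⟩ ⟨s, hs, hL⟩
      simp only [mem_iUnion]
      exact ⟨n, s, hs, L, hL, rfl⟩
    refine Countable.mono this ?_
    exact countable_iUnion fun n => hfs.biUnion fun s _ => (hΛc n s).image _
  obtain ⟨e, he⟩ := countable_iff_exists_injOn.1 hX
  obtain ⟨g, hg⟩ := countable_iff_exists_injOn.1 hΘc
  -- forbidden colours
  have hfin : ∀ x, (F x ∪ Prod.fst '' {p | p ∈ Θ ∧ g p < e x}).Finite := by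
    intro x
    refine (hF x).union (Finite.image _ ?_)
    refine Finite.of_finite_image (f := g) ((finite_lt_nat (e x)).subset ?_)
      (hg.mono fun p hp => hp.1)
    rintro _ ⟨p, hp, rfl⟩
    exact hp.2
  have hex : ∀ x, ∃ n, n ∉ (F x ∪ Prod.fst '' {p | p ∈ Θ ∧ g p < e x}) := fun x =>
    (hfin x).exists_notMem
  choose c hc using hex
  refine ⟨c, fun x _ h => hc x (Or.inl h), fun n L hL => ?_⟩
  by_contra hinf
  obtain ⟨s, hs, L', hL', hML'⟩ := hA n L hL {x | x ∈ X ∧ x ∈ L ∧ c x = n} (fun x hx => hx.2.1) hinf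
  have hp : (n, L') ∈ Θ := ⟨s, fun x hx => (hs hx).1, hL'⟩
  refine hinf (Finite.of_finite_image (f := e) ((finite_le_nat (g (n, L'))).subset ?_)
    (he.mono fun x hx => hx.1))
  rintro _ ⟨x, ⟨hxX, hxL, hcx⟩, rfl⟩
  by_contra hlt
  have hlt' : g (n, L') < e x := not_le.1 hlt
  exact hc x (Or.inr ⟨(n, L'), ⟨hp, hlt'⟩, hcx.symm⟩)

/-- **Colouring theorem**, inductive form with finite lists of forbidden colours. -/
theorem color_aux
    (hΛL : ∀ n s, Λ n s ⊆ 𝓛 n)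
    (hΛc : ∀ n s, (Λ n s).Countable)
    (hΛ0 : ∀ n, Λ n ∅ = ∅)
    (hA : ∀ n, ∀ L ∈ 𝓛 n, ∀ M : Set Q, M ⊆ L → M.Infinite →
      ∃ s : Finset Q, (s : Set Q) ⊆ M ∧ ∃ L' ∈ Λ n s, M ⊆ L')
    (hB : ∀ n m, n ≠ m → ∀ L ∈ 𝓛 n, ∀ L' ∈ 𝓛 m, (L ∩ L').Countable)
    (κ : Cardinal.{u}) : ∀ (X : Set Q), #X = κ → ∀ (F : Q → Set ℕ), (∀ x, (F x).Finite) →
    ∃ c : Q → ℕ, (∀ x ∈ X, c x ∉ F x) ∧
      ∀ n, ∀ L ∈ 𝓛 n, {x | x ∈ X ∧ x ∈ L ∧ c x = n}.Finite := by
  induction κ using WellFoundedLT.induction with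
  | ind κ ih =>
  intro X hX F hF
  by_cases hcount : κ ≤ ℵ₀
  · exact color_countable 𝓛 Λ hΛc hA X
      (by rw [← le_aleph0_iff_set_countable, hX]; exact hcount) F hF
  have hκ : ℵ₀ < κ := not_le.1 hcount
  -- enumerate `X`
  have hcard : #κ.ord.ToType = #X := by rw [hX]; simp
  obtain ⟨f⟩ := Cardinal.eq.1 hcard
  set f' : κ.ord.ToType → Q := fun i => (f i : Q) with hf'
  set B : κ.ord.ToType → Set Q := fun i => cl Λ (f' '' Iic i) with hBdef
  set A : κ.ord.ToType → Set Q := fun i => {x | ∃ j, j < i ∧ x ∈ B j} with hAdef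
  have hBcard : ∀ i, #(B i) < κ := by
    intro i
    have h1 : #(f' '' Iic i) ≤ #(Iic i) := mk_image_le
    have h2 : #(Iic i) < κ := by
      have h3 : #(Iio i) < κ := by
        have := Cardinal.mk_Iio_lt (α := κ.ord.ToType) i (by simp)
        simpa using this
      have h4 : #(Iic i) ≤ #(Iio i) + 1 := by
        rw [← Iio_insert (a := i)]
        exact mk_insert_le
      refine h4.trans_lt ?_
      exact add_lt_of_lt hκ.le h3 (one_lt_aleph0.trans hκ)
    have h5 : #(B i) ≤ max (#(Iic i)) ℵ₀ :=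
      mk_cl_le 𝓛 Λ hΛL hΛc hB _ _ (le_max_right _ _) (h1.trans (le_max_left _ _))
    exact h5.trans_lt (max_lt h2 hκ)
  have hBmono : ∀ j i, j ≤ i → B j ⊆ B i := by
    intro j i hji
    refine cl_mono Λ (image_mono fun k hk => ?_)
    exact le_trans hk hji
  -- a finite subset of the union of the sets `B j`, `j < i`, is a subset of one of them
  have hfinB : ∀ (P : κ.ord.ToType → Prop) (_ : ∀ j k, P j → P k → P (max j k))
      (s : Finset Q) (_ : s.Nonempty), (∀ x ∈ s, ∃ j, P j ∧ x ∈ B j) →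
      ∃ j, P j ∧ (s : Set Q) ⊆ B j := by
    classical
    intro P hP s hne
    induction hne using Finset.Nonempty.cons_induction with
    | singleton a =>
      intro hs
      obtain ⟨j, hj, haj⟩ := hs a (Finset.mem_singleton_self a)
      exact ⟨j, hj, by simpa using haj⟩
    | cons a s ha hsne ih2 =>
      intro hs
      obtain ⟨j, hj, hsj⟩ := ih2 fun x hx => hs x (Finset.mem_cons_of_mem hx)
      obtain ⟨k, hk, hak⟩ := hs a (Finset.mem_cons_self a s)
      refine ⟨max j k, hP _ _ hj hk, ?_⟩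
      rw [Finset.coe_cons, insert_subset_iff]
      exact ⟨hBmono _ _ (le_max_right _ _) hak, hsj.trans (hBmono _ _ (le_max_left _ _))⟩
  have hne : ∀ n (s : Finset Q) L, L ∈ Λ n s → s.Nonempty := by
    intro n s L hL
    rw [Finset.nonempty_iff_ne_empty]
    rintro rfl
    rw [hΛ0] at hL
    exact hL
  have hAcl : ∀ i, ClosedUnder Λ (A i) := by
    intro i s s' hs hs' n m hnm L hL L' hL' x hx
    obtain ⟨j, hj, hsj⟩ := hfinB (fun j => j < i) (fun j k hj hk => max_lt hj hk) s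
      (hne _ _ _ hL) fun x hx => hs hx
    obtain ⟨k, hk, hsk⟩ := hfinB (fun j => j < i) (fun j k hj hk => max_lt hj hk) s'
      (hne _ _ _ hL') fun x hx => hs' hx
    refine ⟨max j k, max_lt hj hk, ?_⟩
    exact closedUnder_cl Λ _ s s' (hsj.trans (hBmono _ _ (le_max_left _ _)))
      (hsk.trans (hBmono _ _ (le_max_right _ _))) n m hnm L hL L' hL' hx
  -- forbidden sets
  set T : κ.ord.ToType → Q → Set ℕ := fun i x =>
    {n | x ∉ A i ∧ ∃ s : Finset Q, (s : Set Q) ⊆ A i ∧ ∃ L ∈ Λ n s, x ∈ L} with hTdef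
  have hT : ∀ i x, (T i x).Finite := by
    intro i x
    refine Set.Subsingleton.finite ?_
    rintro n ⟨hx, s, hs, L, hL, hxL⟩ m ⟨-, s', hs', L', hL', hxL'⟩
    by_contra hnm
    exact hx (hAcl i s s' hs hs' n m hnm L hL L' hL' ⟨hxL, hxL'⟩)
  have hci : ∀ i, ∃ c : Q → ℕ, (∀ x ∈ B i, c x ∉ F x ∪ T i x) ∧
      ∀ n, ∀ L ∈ 𝓛 n, {x | x ∈ B i ∧ x ∈ L ∧ c x = n}.Finite := fun i =>
    ih _ (hBcard i) (B i) rfl (fun x => F x ∪ T i x) fun x => (hF x).union (hT i x)
  choose c hc1 hc2 using hci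
  -- rank
  have hrank : ∀ x ∈ X, ∃ i, x ∈ B i ∧ ∀ j < i, x ∉ B j := by
    intro x hx
    have hne : {i | x ∈ B i}.Nonempty := by
      refine ⟨f.symm ⟨x, hx⟩, subset_cl Λ _ ⟨f.symm ⟨x, hx⟩, mem_Iic.2 (le_refl _), ?_⟩⟩
      simp [hf']
    obtain ⟨i, hi, hmin⟩ := WellFounded.has_min
      (wellFounded_lt : WellFounded (α := κ.ord.ToType) (· < ·)) _ hne
    exact ⟨i, hi, fun j hj h => hmin j h hj⟩
  have hrank' : ∀ x, ∃ i, x ∈ X → x ∈ B i ∧ ∀ j < i, x ∉ B j := by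
    intro x
    by_cases hx : x ∈ X
    · obtain ⟨i, hi⟩ := hrank x hx
      exact ⟨i, fun _ => hi⟩
    · have : Nonempty κ.ord.ToType := by
        rw [← mk_ne_zero_iff, hcard, hX]
        exact (aleph0_pos.trans hκ).ne'
      exact ⟨this.some, fun h => absurd h hx⟩
  choose ρ hρ using hrank'
  have hρA : ∀ x ∈ X, x ∉ A (ρ x) := by
    rintro x hx ⟨j, hj, hxj⟩
    exact (hρ x hx).2 j hj hxj
  refine ⟨fun x => c (ρ x) x, fun x hx h => hc1 (ρ x) x (hρ x hx).1 (Or.inl h), fun n L hL => ?_⟩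
  set M : Set Q := {x | x ∈ X ∧ x ∈ L ∧ c (ρ x) x = n} with hM
  -- the key step
  have key : ∀ (M' : Set Q), M' ⊆ M → ∀ (s : Finset Q) (j : κ.ord.ToType), (s : Set Q) ⊆ B j →
      ∀ L' ∈ Λ n s, M' ⊆ L' → M' ⊆ B j := by
    intro M' hM' s j hs L' hL' hML' x hx
    have hxM := hM' hx
    rcases le_or_gt (ρ x) j with hle | hgt
    · exact hBmono _ _ hle (hρ x hxM.1).1
    · exfalso
      refine hc1 (ρ x) x (hρ x hxM.1).1 (Or.inr ?_)
      change c (ρ x) x ∈ T (ρ x) x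
      rw [hxM.2.2]
      exact ⟨hρA x hxM.1, s, fun y hy => ⟨j, hgt, hs hy⟩, L', hL', hML' hx⟩
  have hMi : ∀ i, (M ∩ B i).Finite := by
    intro i
    induction i using WellFoundedLT.induction with
    | ind i ihi =>
    set M' : Set Q := {x | x ∈ M ∧ ρ x < i} with hM'
    have hM'fin : M'.Finite := by
      by_contra hinf
      obtain ⟨s, hs, L', hL', hML'⟩ := hA n L hL M' (fun x hx => hx.1.2.1) hinf
      obtain ⟨j, hj, hsj⟩ := hfinB (fun j => j < i) (fun j k hj hk => max_lt hj hk) s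
        (hne _ _ _ hL') fun x hx => ⟨ρ x, (hs hx).2, (hρ x (hs hx).1.1).1⟩
      have h1 := key M' (fun x hx => hx.1) s j hsj L' hL' hML'
      exact hinf ((ihi j hj).subset fun x hx => ⟨hx.1, h1 hx⟩)
    refine (hM'fin.union (hc2 i n L hL)).subset ?_
    rintro x ⟨hxM, hxB⟩
    rcases lt_trichotomy (ρ x) i with hlt | heq | hgt
    · exact Or.inl ⟨hxM, hlt⟩
    · refine Or.inr ⟨hxB, hxM.2.1, ?_⟩
      rw [← heq]; exact hxM.2.2
    · exact absurd hxB ((hρ x hxM.1).2 i hgt)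
  by_contra hinf
  obtain ⟨s, hs, L', hL', hML'⟩ := hA n L hL M (fun x hx => hx.2.1) hinf
  obtain ⟨j, -, hsj⟩ := hfinB (fun _ => True) (fun j k hj hk => trivial) s
    (hne _ _ _ hL') fun x hx => ⟨ρ x, trivial, (hρ x (hs hx).1).1⟩
  have h1 := key M (fun x hx => hx) s j hsj L' hL' hML'
  exact hinf ((hMi j).subset fun x hx => ⟨hx, h1 hx⟩)

/-- **Colouring theorem.** -/
theorem exists_coloring
    (hΛL : ∀ n s, Λ n s ⊆ 𝓛 n)
    (hΛc : ∀ n s, (Λ n s).Countable)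
    (hΛ0 : ∀ n, Λ n ∅ = ∅)
    (hA : ∀ n, ∀ L ∈ 𝓛 n, ∀ M : Set Q, M ⊆ L → M.Infinite →
      ∃ s : Finset Q, (s : Set Q) ⊆ M ∧ ∃ L' ∈ Λ n s, M ⊆ L')
    (hB : ∀ n m, n ≠ m → ∀ L ∈ 𝓛 n, ∀ L' ∈ 𝓛 m, (L ∩ L').Countable) :
    ∃ c : Q → ℕ, ∀ n, ∀ L ∈ 𝓛 n, {x | x ∈ L ∧ c x = n}.Finite := by
  obtain ⟨c, -, hc⟩ := color_aux 𝓛 Λ hΛL hΛc hΛ0 hA hB (#(univ : Set Q)) univ rfl (fun _ => ∅)
    (fun _ => finite_empty)
  refine ⟨c, fun n L hL => ?_⟩
  have := hc n L hL
  simpa using this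

/-- **Colouring theorem**, the version where `k` distinct points lie on only countably many
lines of each type. -/
theorem exists_coloring_of_card (k : ℕ) (hk : 0 < k)
    (hA : ∀ n, ∀ s : Finset Q, s.card = k → {L | L ∈ 𝓛 n ∧ (s : Set Q) ⊆ L}.Countable)
    (hB : ∀ n m, n ≠ m → ∀ L ∈ 𝓛 n, ∀ L' ∈ 𝓛 m, (L ∩ L').Countable) :
    ∃ c : Q → ℕ, ∀ n, ∀ L ∈ 𝓛 n, {x | x ∈ L ∧ c x = n}.Finite := by
  refine exists_coloring 𝓛 (fun n s => {L | s.card = k ∧ L ∈ 𝓛 n ∧ (s : Set Q) ⊆ L})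
    (fun n s L hL => hL.2.1) ?_ ?_ ?_ hB
  · intro n s
    by_cases h : s.card = k
    · exact (hA n s h).mono fun L hL => hL.2
    · refine (countable_empty).mono fun L hL => h hL.1
  · intro n
    ext L
    simp only [Finset.card_empty, mem_empty_iff_false, iff_false]
    rintro ⟨h, -⟩
    omega
  · intro n L hL M hM hinf
    obtain ⟨t, ht, htc⟩ := hinf.exists_subset_card_eq k
    exact ⟨t, ht, L, ⟨htc, hL, ht.trans hM⟩, hM⟩

end Pool.Agent.MP8b9
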