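import Pool.Agent.Lib.MP_8b9ec4_lc.Basic
import Pool.Agent.Lib.MP_8b9ec4_lc.Myc
import Pool.Agent.Lib.MP_8b9ec4_lc.Color
import Pool.Agent.Lib.MP_8b9ec4_lc.Chain

/-!
# Groups with an open subgroup whose centre is uncountable
-/

namespace Pool.Agent.MP8b9

open Set Topology TopologicalSpace

/-- Coset representatives of an open subgroup. -/
theorem exists_reps {H : Type*} [Group H] [TopologicalSpace H] [IsTopologicalGroup H]
    [SecondCountableTopology H] (U : Subgroup H) (hU : IsOpen (U : Set H)) :
    ∃ D : Set H, D.Countable ∧ D.Nonempty ∧ ∀ h : H, ∃ u ∈ U, ∃ d ∈ D, h = u * d := by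
  have : DiscreteTopology (H ⧸ U) := by
    rw [QuotientGroup.discreteTopology_iff]
    exact hU
  have hc : Countable (H ⧸ U) := TopologicalSpace.separableSpace_iff_countable.1 inferInstance
  refine ⟨range fun q : H ⧸ U => (Quotient.out q)⁻¹, countable_range _, range_nonempty _,
    fun h => ?_⟩
  have h1 : (Quotient.out ((h⁻¹ : H) : H ⧸ U))⁻¹ * h⁻¹ ∈ U := by
    rw [← QuotientGroup.eq]; simp
  refine ⟨h * Quotient.out ((h⁻¹ : H) : H ⧸ U), ?_, (Quotient.out ((h⁻¹ : H) : H ⧸ U))⁻¹,
    ⟨_, rfl⟩, ?_⟩
  · have := U.inv_mem h1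
    simpa using this
  · group

/-- If a quotient of a Polish group has an open subgroup whose centre is uncountable, then the
quotient has a Cantor cover. -/
theorem CantorCover.of_centre {G H : Type*} [Group G] [TopologicalSpace G] [IsTopologicalGroup G]
    [PolishSpace G] [Group H] [TopologicalSpace H] [IsTopologicalGroup H] [T2Space H]
    (π : G →* H) (hπ : IsOpenQuotientMap π) (U : Subgroup H) (hU : IsOpen (U : Set H))
    (hZ : ¬ Countable (Subgroup.center U)) : CantorCover H := by
  classical
  have hsc : SecondCountableTopology H := hπ.isQuotientMap.secondCountableTopology hπ.isOpenMap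
  obtain ⟨D, hDc, hDne, hD⟩ := exists_reps U hU
  -- the centre of `U` as a subgroup of `H`
  set Z : Subgroup H := U ⊓ Subgroup.centralizer (U : Set H) with hZdef
  have hZc : IsClosed (Z : Set H) := by
    have h1 : IsClosed (U : Set H) := Subgroup.isClosed_of_isOpen U hU
    have h2 : IsClosed (Subgroup.centralizer (U : Set H) : Set H) := by
      have : (Subgroup.centralizer (U : Set H) : Set H) = ⋂ u ∈ U, {z | u * z = z * u} := by
        ext z
        simp [Subgroup.mem_centralizer_iff]
      rw [this]
      refine isClosed_iInter fun u => isClosed_iInter fun _ => ?_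
      exact isClosed_eq (by fun_prop) (by fun_prop)
    exact h1.inter h2
  set Y : Subgroup G := Z.comap π with hY
  have hYc : IsClosed (Y : Set G) := hZc.preimage hπ.continuous
  have : PolishSpace Y := hYc.polishSpace
  set π' : Y →* H := π.comp Y.subtype with hπ'
  have hπ'c : Continuous π' := hπ.continuous.comp continuous_subtype_val
  -- fibres have empty interior
  have hfib : ∀ b : Y, interior {t : Y | π' t = π' b} = ∅ := by
    intro b
    by_contra hne
    have h1 : {t : Y | π' t = π' b} = {t : Y | t⁻¹ * b ∈ π'.ker} := by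
      ext t
      simp only [mem_ofPred_eq, MonoidHom.mem_ker, map_mul, map_inv]
      constructor
      · intro h; rw [h]; simp
      · intro h
        have := mul_eq_one_iff_inv_eq.1 h
        simpa using this
    rw [h1] at hne
    have h2 := countable_quotient_of_interior π'.ker b (nonempty_iff_ne_empty.2 hne)
    apply hZ
    have h4 : (Z : Set H) ⊆ range (QuotientGroup.kerLift π') := by
      intro z hz
      obtain ⟨g, rfl⟩ := hπ.surjective z
      exact ⟨((⟨g, hz⟩ : Y) : Y ⧸ π'.ker), rfl⟩
    have h5 : (Z : Set H).Countable := (countable_range _).mono h4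
    have hmem : ∀ z : Subgroup.center U, ((z : U) : H) ∈ Z := by
      intro z
      refine Subgroup.mem_inf.2 ⟨z.1.2, ?_⟩
      rw [Subgroup.mem_centralizer_iff]
      intro u hu
      have := Subgroup.mem_center_iff.1 z.2 ⟨u, hu⟩
      exact congrArg Subtype.val this
    have h6 : Function.Injective (fun z : Subgroup.center U => (⟨((z : U) : H), hmem z⟩ : Z)) := by
      intro a b hab
      have := congrArg Subtype.val hab
      exact Subtype.ext (Subtype.ext this)
    have h7 : Countable Z := h5.to_subtype
    exact h6.countable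
  -- the relations
  set ι := (D × D) × Fin 4 with hι
  have : Countable D := hDc.to_subtype
  obtain ⟨σ, hσ, hrel⟩ := mycielski_pattern (Y := Y) (ι := ι) 4
    (fun k => {y | (k.1.1 : H)⁻¹ * ((π' (y 0))⁻¹ * π' (y 1)) * (k.1.1 : H) =
      (k.1.2 : H)⁻¹ * ((π' (y 2))⁻¹ * π' (y 3)) * (k.1.2 : H)}) (fun k => k.2)
    (fun k => isClosed_eq (by fun_prop) (by fun_prop))
    (fun k y => by
      by_contra hne
      obtain ⟨b, hb⟩ := nonempty_iff_ne_empty.2 hne
      obtain ⟨⟨d, d'⟩, i⟩ := k
      have key : ∀ t t' : Y,
          (d : H)⁻¹ * ((π' (Function.update y i t 0))⁻¹ * π' (Function.update y i t 1)) * (d : H) =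
          (d' : H)⁻¹ * ((π' (Function.update y i t 2))⁻¹ * π' (Function.update y i t 3)) *
            (d' : H) →
          (d : H)⁻¹ * ((π' (Function.update y i t' 0))⁻¹ * π' (Function.update y i t' 1)) *
            (d : H) =
          (d' : H)⁻¹ * ((π' (Function.update y i t' 2))⁻¹ * π' (Function.update y i t' 3)) *
            (d' : H) → π' t = π' t' := by
        intro t t' h1 h2
        fin_cases i
        · simp only [Fin.zero_eta, Function.update_self, ne_eq, Fin.reduceEq, not_false_eq_true,
            Function.update_of_ne] at h1 h2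
          rw [← h2] at h1
          simpa using h1
        · simp only [Fin.mk_one, Function.update_self, ne_eq, Fin.reduceEq, not_false_eq_true,
            Function.update_of_ne] at h1 h2
          rw [← h2] at h1
          simpa using h1
        · simp only [Fin.reduceFinMk, Function.update_self, ne_eq, Fin.reduceEq,
            not_false_eq_true, Function.update_of_ne] at h1 h2
          rw [h2] at h1
          simpa using h1.symm
        · simp only [Fin.reduceFinMk, Function.update_self, ne_eq, Fin.reduceEq,
            not_false_eq_true, Function.update_of_ne] at h1 h2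
          rw [h2] at h1
          simpa using h1.symm
      have h3 := hfib b
      have h4 : b ∈ {t : Y | Function.update y i t ∈ {y : Fin 4 → Y |
          (d : H)⁻¹ * ((π' (y 0))⁻¹ * π' (y 1)) * (d : H) =
          (d' : H)⁻¹ * ((π' (y 2))⁻¹ * π' (y 3)) * (d' : H)}} := interior_subset hb
      have h5 := interior_maximal (s := {t : Y | π' t = π' b}) (fun t ht => by
        have h6 : t ∈ {t : Y | Function.update y i t ∈ {y : Fin 4 → Y |
          (d : H)⁻¹ * ((π' (y 0))⁻¹ * π' (y 1)) * (d : H) =
          (d' : H)⁻¹ * ((π' (y 2))⁻¹ * π' (y 3)) * (d' : H)}} := interior_subset ht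
        exact key t b h6 h4) (isOpen_interior (s := {t : Y | Function.update y i t ∈
          {y : Fin 4 → Y | (d : H)⁻¹ * ((π' (y 0))⁻¹ * π' (y 1)) * (d : H) =
          (d' : H)⁻¹ * ((π' (y 2))⁻¹ * π' (y 3)) * (d' : H)}}))
      rw [h3] at h5
      exact h5 hb)
  -- the map to `H`
  set p : (ℕ → Bool) → H := fun x => π' (σ x) with hp
  have hpc : Continuous p := hπ'c.comp hσ
  have hpZ : ∀ x, p x ∈ Z := fun x => (σ x).2
  have hrel' : ∀ d ∈ D, ∀ d' ∈ D, ∀ (i : Fin 4) (z : Fin 4 → (ℕ → Bool)),
      (∀ j, j ≠ i → z j ≠ z i) →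
      d⁻¹ * ((p (z 0))⁻¹ * p (z 1)) * d ≠ d'⁻¹ * ((p (z 2))⁻¹ * p (z 3)) * d' := by
    intro d hd d' hd' i z hz
    exact hrel ((⟨d, hd⟩, ⟨d', hd'⟩), i) z hz
  have hpinj : Function.Injective p := by
    intro x y hxy
    by_contra hne
    obtain ⟨d, hd⟩ := hDne
    refine hrel' d hd d hd 0 ![x, y, y, y] ?_ ?_
    · intro j hj
      fin_cases j
      · exact absurd rfl hj
      · exact fun h => hne h.symm
      · exact fun h => hne h.symm
      · exact fun h => hne h.symm
    · simp [hxy]
  -- the lines
  set 𝓛 : ℕ → Set (Set H) := fun n =>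
    {L | ∃ g : H, ∃ d ∈ D, L = range fun x => g * p (code n x) * d} with h𝓛
  obtain ⟨c, hc⟩ := exists_coloring_of_card 𝓛 2 (by norm_num) (by
    intro n s hs
    obtain ⟨a, b, hab, rfl⟩ := Finset.card_eq_two.1 hs
    -- solutions
    have hS : ∀ d ∈ D, {q : (ℕ → Bool) × (ℕ → Bool) |
        (p (code n q.1))⁻¹ * p (code n q.2) = d * (a⁻¹ * b) * d⁻¹}.Countable := by
      intro d hd
      rcases eq_empty_or_nonempty {q : (ℕ → Bool) × (ℕ → Bool) |
        (p (code n q.1))⁻¹ * p (code n q.2) = d * (a⁻¹ * b) * d⁻¹} with h | ⟨⟨x0, y0⟩, h0⟩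
      · rw [h]; exact countable_empty
      · have hne : ∀ x y, (p (code n x))⁻¹ * p (code n y) = d * (a⁻¹ * b) * d⁻¹ → x ≠ y := by
          rintro x y h rfl
          rw [inv_mul_cancel] at h
          have : a⁻¹ * b = 1 := by
            have h' : d * (a⁻¹ * b) * d⁻¹ = 1 := h.symm
            exact conj_eq_one_iff.1 h'
          exact hab (inv_mul_eq_one.1 this)
        refine Countable.mono (s₂ := {(x0, y0), (y0, x0)}) ?_ (by simp)
        rintro ⟨x, y⟩ h1
        have e0 : (p (code n x0))⁻¹ * p (code n y0) = d * (a⁻¹ * b) * d⁻¹ := h0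
        have e1 : (p (code n x))⁻¹ * p (code n y) = d * (a⁻¹ * b) * d⁻¹ := h1
        have hxy := hne x y e1
        have hxy0 := hne x0 y0 e0
        by_contra hcon
        simp only [mem_insert_iff, Prod.mk.injEq, mem_singleton_iff, not_or, not_and] at hcon
        have hinj := code_injective n
        by_cases hx : x = x0 ∨ x = y0
        · -- then `y` is new
          have hy : y ≠ x0 ∧ y ≠ y0 := by
            rcases hx with hx | hx
            · exact ⟨fun h => hxy (hx.trans h.symm), hcon.1 hx⟩
            · exact ⟨hcon.2 hx, fun h => hxy (hx.trans h.symm)⟩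
          refine hrel' d hd d hd 1 ![code n x, code n y, code n x0, code n y0] ?_ ?_
          · intro j hj
            fin_cases j
            · exact fun h => hxy (hinj h)
            · exact absurd rfl hj
            · exact fun h => hy.1 (hinj h).symm
            · exact fun h => hy.2 (hinj h).symm
          · change d⁻¹ * ((p (code n x))⁻¹ * p (code n y)) * d =
              d⁻¹ * ((p (code n x0))⁻¹ * p (code n y0)) * d
            rw [e0, e1]
        · push Not at hx
          refine hrel' d hd d hd 0 ![code n x, code n y, code n x0, code n y0] ?_ ?_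
          · intro j hj
            fin_cases j
            · exact absurd rfl hj
            · exact fun h => hxy (hinj h).symm
            · exact fun h => hx.1 (hinj h).symm
            · exact fun h => hx.2 (hinj h).symm
          · change d⁻¹ * ((p (code n x))⁻¹ * p (code n y)) * d =
              d⁻¹ * ((p (code n x0))⁻¹ * p (code n y0)) * d
            rw [e0, e1]
    have hsub : {L | L ∈ 𝓛 n ∧ ((({a, b} : Finset H) : Set H)) ⊆ L} ⊆
        ⋃ d ∈ D, (fun q : (ℕ → Bool) × (ℕ → Bool) =>
          range fun x => (a * d⁻¹ * (p (code n q.1))⁻¹) * p (code n x) * d) ''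
          {q : (ℕ → Bool) × (ℕ → Bool) |
            (p (code n q.1))⁻¹ * p (code n q.2) = d * (a⁻¹ * b) * d⁻¹} := by
      rintro L ⟨⟨g, d, hd, rfl⟩, hL⟩
      have ha : a ∈ range fun x => g * p (code n x) * d := hL (by simp)
      have hb : b ∈ range fun x => g * p (code n x) * d := hL (by simp)
      obtain ⟨x, hx⟩ := ha
      obtain ⟨y, hy⟩ := hb
      simp only at hx hy
      simp only [mem_iUnion]
      refine ⟨d, hd, (x, y), ?_, ?_⟩
      · change (p (code n x))⁻¹ * p (code n y) = d * (a⁻¹ * b) * d⁻¹
        rw [← hx, ← hy]; group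
      · have : g = a * d⁻¹ * (p (code n x))⁻¹ := by
          rw [← hx]; group
        simp only [← this]
    refine Countable.mono hsub ?_
    exact hDc.biUnion fun d hd => (hS d hd).image _) (by
    rintro n m hnm L ⟨g, d, hd, rfl⟩ L' ⟨g', d', hd', rfl⟩
    refine Set.Subsingleton.countable ?_
    rintro a ⟨⟨x, hx⟩, ⟨x', hx'⟩⟩ b ⟨⟨y, hy⟩, ⟨y', hy'⟩⟩
    by_contra hab
    simp only at hx hx' hy hy'
    have hxy : x ≠ y := by
      rintro rfl
      exact hab (hx.symm.trans hy)
    refine hrel' d hd d' hd' 0 ![code n x, code n y, code m x', code m y'] ?_ ?_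
    · intro j hj
      fin_cases j
      · exact absurd rfl hj
      · exact fun h => hxy (code_injective n h).symm
      · exact code_ne hnm.symm _ _
      · exact code_ne hnm.symm _ _
    · change d⁻¹ * ((p (code n x))⁻¹ * p (code n y)) * d =
        d'⁻¹ * ((p (code m x'))⁻¹ * p (code m y')) * d'
      have h1 : d⁻¹ * ((p (code n x))⁻¹ * p (code n y)) * d = a⁻¹ * b := by
        rw [← hx, ← hy]; group
      have h2 : d'⁻¹ * ((p (code m x'))⁻¹ * p (code m y')) * d' = a⁻¹ * b := by
        rw [← hx', ← hy']; group
      rw [h1, h2])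
  refine ⟨fun n x => p (code n x), c, fun n => hpc.comp (continuous_code n), fun n g h => ?_⟩
  obtain ⟨u, hu, d, hd, rfl⟩ := hD h
  have hcomm : ∀ x, g * p (code n x) * (u * d) = (g * u) * p (code n x) * d := by
    intro x
    have h1 := (Subgroup.mem_inf.1 (hpZ (code n x))).2
    rw [Subgroup.mem_centralizer_iff] at h1
    have h2 := h1 u hu
    calc g * p (code n x) * (u * d) = g * (p (code n x) * u) * d := by group
      _ = g * (u * p (code n x)) * d := by rw [h2]
      _ = (g * u) * p (code n x) * d := by group
  have hfin := hc n (range fun x => (g * u) * p (code n x) * d) ⟨g * u, d, hd, rfl⟩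
  refine Set.Finite.countable ?_
  refine Finite.of_finite_image (f := fun x => (g * u) * p (code n x) * d) (hfin.subset ?_) ?_
  · rintro _ ⟨x, hx, rfl⟩
    refine ⟨⟨x, rfl⟩, ?_⟩
    simp only
    rw [← hcomm]
    exact hx
  · intro x _ y _ hxy
    simp only [mul_left_inj, mul_right_inj] at hxy
    exact code_injective n (hpinj hxy)

end Pool.Agent.MP8b9
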