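import Pool.Agent.Lib.MP_8b9ec4_lc.Basic
import Pool.Agent.Lib.MP_8b9ec4_lc.Myc
import Pool.Agent.Lib.MP_8b9ec4_lc.Color

/-!
# An abstract criterion for the existence of a Cantor cover
-/

namespace Pool.Agent.MP8b9

open Set Topology TopologicalSpace

/-- An abstract criterion: three points of a two-sided translate of the image of the Cantor set
determine the part of the translate near these points. -/
theorem CantorCover.of_core {H : Type*} [Group H] [TopologicalSpace H] (p : (ℕ → Bool) → H)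
    (hp : Continuous p) (hinj : Function.Injective p)
    (near : (ℕ → Bool) → (ℕ → Bool) → Set (ℕ → Bool))
    (hnear : ∀ M : Set (ℕ → Bool), M.Infinite → ∃ a1 ∈ M, ∃ a2 ∈ M, ∃ a3 ∈ M,
      a1 ≠ a2 ∧ a1 ≠ a3 ∧ a2 ≠ a3 ∧ M ⊆ near a1 a2)
    (hcore : ∀ g h g' h' : H, ∀ a1 a2 a3 b1 b2 b3 : ℕ → Bool, a1 ≠ a2 → a1 ≠ a3 → a2 ≠ a3 →
      a3 ∈ near a1 a2 → g * p a1 * h = g' * p b1 * h' → g * p a2 * h = g' * p b2 * h' →
      g * p a3 * h = g' * p b3 * h' →
      b1 = a1 ∧ b2 = a2 ∧ b3 = a3 ∧ ∀ y ∈ near a1 a2, g * p y * h = g' * p y * h') :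
    CantorCover H := by
  classical
  set 𝓛 : ℕ → Set (Set H) := fun n =>
    {L | ∃ g h : H, ∃ S : Set (ℕ → Bool), S ⊆ range (code n) ∧ L = (fun y => g * p y * h) '' S}
    with h𝓛
  set Θ : ℕ → H → H → H → Set (Set H) := fun n P1 P2 P3 =>
    {L | ∃ g h : H, ∃ a1 ∈ range (code n), ∃ a2 ∈ range (code n), ∃ a3 ∈ range (code n),
      a1 ≠ a2 ∧ a1 ≠ a3 ∧ a2 ≠ a3 ∧ a3 ∈ near a1 a2 ∧
      g * p a1 * h = P1 ∧ g * p a2 * h = P2 ∧ g * p a3 * h = P3 ∧
      L = (fun y => g * p y * h) '' (near a1 a2 ∩ range (code n))} with hΘ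
  have hΘs : ∀ n P1 P2 P3, (Θ n P1 P2 P3).Subsingleton := by
    rintro n P1 P2 P3 L ⟨g, h, a1, -, a2, -, a3, -, h12, h13, h23, hn, e1, e2, e3, rfl⟩ L'
      ⟨g', h', b1, -, b2, -, b3, -, -, -, -, -, e1', e2', e3', rfl⟩
    obtain ⟨rfl, rfl, rfl, hall⟩ := hcore g h g' h' a1 a2 a3 b1 b2 b3 h12 h13 h23 hn
      (e1.trans e1'.symm) (e2.trans e2'.symm) (e3.trans e3'.symm)
    refine image_congr fun y hy => ?_
    exact hall y hy.1
  set Λ : ℕ → Finset H → Set (Set H) := fun n s =>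
    ⋃ q ∈ (s : Set H) ×ˢ ((s : Set H) ×ˢ (s : Set H)), Θ n q.1 q.2.1 q.2.2 with hΛ
  obtain ⟨c, hc⟩ := exists_coloring 𝓛 Λ (by
    intro n s L hL
    simp only [hΛ, mem_iUnion] at hL
    obtain ⟨q, hq, g, h, a1, -, a2, -, a3, -, -, -, -, -, -, -, -, rfl⟩ := hL
    exact ⟨g, h, _, inter_subset_right, rfl⟩) (by
    intro n s
    refine Set.Countable.biUnion ?_ fun q _ => (hΘs n _ _ _).countable
    exact (s.countable_toSet.prod (s.countable_toSet.prod s.countable_toSet))) (by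
    intro n
    simp [hΛ]) (by
    rintro n L ⟨g, h, S, hS, rfl⟩ M hM hinf
    set M' : Set (ℕ → Bool) := {a | a ∈ S ∧ g * p a * h ∈ M} with hM'
    have hMM' : M ⊆ (fun y => g * p y * h) '' M' := by
      intro y hy
      obtain ⟨a, ha, rfl⟩ := hM hy
      exact ⟨a, ⟨ha, hy⟩, rfl⟩
    have hM'inf : M'.Infinite := by
      intro hfin
      exact hinf ((hfin.image _).subset hMM')
    obtain ⟨a1, h1, a2, h2, a3, h3, h12, h13, h23, hsub⟩ := hnear M' hM'inf
    refine ⟨{g * p a1 * h, g * p a2 * h, g * p a3 * h}, ?_, ?_⟩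
    · intro y hy
      simp only [Finset.coe_insert, Finset.coe_singleton, mem_insert_iff, mem_singleton_iff] at hy
      rcases hy with rfl | rfl | rfl
      · exact h1.2
      · exact h2.2
      · exact h3.2
    · refine ⟨(fun y => g * p y * h) '' (near a1 a2 ∩ range (code n)), ?_, ?_⟩
      · simp only [hΛ, mem_iUnion]
        refine ⟨(g * p a1 * h, g * p a2 * h, g * p a3 * h), by simp, ?_⟩
        exact ⟨g, h, a1, hS h1.1, a2, hS h2.1, a3, hS h3.1, h12, h13, h23, hsub h3, rfl, rfl,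
          rfl, rfl⟩
      · refine hMM'.trans (image_mono fun a ha => ?_)
        exact ⟨hsub ha, hS ha.1⟩) (by
    rintro n m hnm L ⟨g, h, S, hS, rfl⟩ L' ⟨g', h', S', hS', rfl⟩
    refine Set.Finite.countable ?_
    by_contra hinf
    set M' : Set (ℕ → Bool) := {a | a ∈ S ∧ g * p a * h ∈ (fun y => g' * p y * h') '' S'} with hM'
    have hM'inf : M'.Infinite := by
      intro hfin
      refine hinf ((hfin.image (fun y => g * p y * h)).subset ?_)
      rintro y ⟨⟨a, ha, rfl⟩, hy⟩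
      exact ⟨a, ⟨ha, hy⟩, rfl⟩
    obtain ⟨a1, h1, a2, h2, a3, h3, h12, h13, h23, hsub⟩ := hnear M' hM'inf
    obtain ⟨b1, hb1, e1⟩ := h1.2
    obtain ⟨b2, hb2, e2⟩ := h2.2
    obtain ⟨b3, hb3, e3⟩ := h3.2
    obtain ⟨hab, -⟩ := hcore g h g' h' a1 a2 a3 b1 b2 b3 h12 h13 h23 (hsub h3) e1.symm e2.symm
      e3.symm
    obtain ⟨u, hu⟩ := hS h1.1
    obtain ⟨v, hv⟩ := hS' hb1
    exact code_ne hnm u v (by rw [hu, hv, hab]))
  refine ⟨fun n x => p (code n x), c, fun n => hp.comp (continuous_code n), fun n g h => ?_⟩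
  have hfin := hc n ((fun y => g * p y * h) '' range (code n)) ⟨g, h, _, Subset.rfl, rfl⟩
  refine Set.Finite.countable ?_
  refine Finite.of_finite_image (f := fun x => g * p (code n x) * h) (hfin.subset ?_) ?_
  · rintro _ ⟨x, hx, rfl⟩
    exact ⟨⟨code n x, mem_range_self x, rfl⟩, hx⟩
  · intro x _ y _ hxy
    simp only [mul_left_inj, mul_right_inj] at hxy
    exact code_injective n (hinj hxy)

end Pool.Agent.MP8b9
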