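import Mathlib

/-!
# Naively Haar null sets
-/

namespace Pool.Agent.MP8b9

open MeasureTheory

/-- `X` is naively Haar null: some (Borel) probability measure `μ` on the group `G` satisfies
`μ (g X h) = 0` for all `g` and `h`.  The measure is evaluated at arbitrary sets, where Mathlib
takes the outer measure; so no measurability of `X` is required. -/
def NaivelyHaarNull {G : Type*} [Group G] [MeasurableSpace G] (X : Set G) : Prop :=
  ∃ μ : Measure G, IsProbabilityMeasure μ ∧ ∀ g h : G, μ ((fun x => g * x * h) '' X) = 0

end Pool.Agent.MP8b9
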