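import Pool.Agent.Lib.MP_8b9ec4_lc.Core
import Pool.Agent.Lib.MP_8b9ec4_lc.AlgInd

/-!
# Groups with a nontrivial one-parameter subgroup
-/

namespace Pool.Agent.MP8b9

open Set Topology TopologicalSpace

/-- one-parameter subgroups -/
structure OneParam {H : Type*} [Group H] [TopologicalSpace H] (J : ℝ → H) : Prop where
  cont : Continuous J
  add : ∀ x y, J (x + y) = J x * J y

namespace OneParam

variable {H : Type*} [Group H] [TopologicalSpace H] {J : ℝ → H}

theorem zero (hJ : OneParam J) : J 0 = 1 := by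
  have := hJ.add 0 0
  rw [add_zero] at this
  exact (mul_eq_left.1 this.symm)

theorem neg (hJ : OneParam J) (x : ℝ) : J (-x) = (J x)⁻¹ := by
  rw [eq_inv_iff_mul_eq_one, ← hJ.add, neg_add_cancel, hJ.zero]

theorem sub (hJ : OneParam J) (x y : ℝ) : J (x - y) = (J y)⁻¹ * J x := by
  rw [sub_eq_add_neg, add_comm, hJ.add, hJ.neg]

theorem comm (hJ : OneParam J) (x y : ℝ) : J x * J y = J y * J x := by
  rw [← hJ.add, ← hJ.add, add_comm]

theorem comp_mul (hJ : OneParam J) (c : ℝ) : OneParam fun t => J (c * t) :=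
  ⟨hJ.cont.comp (continuous_const.mul continuous_id), fun x y => by
    simp only [mul_add, hJ.add]⟩

theorem conj [IsTopologicalGroup H] (hJ : OneParam J) (k : H) :
    OneParam fun t => k * J t * k⁻¹ :=
  ⟨by have := hJ.cont; fun_prop, fun x y => by simp only [hJ.add]; group⟩

/-- A subgroup containing the values at two rationally independent numbers is dense in the image. -/
theorem dense_closure {x y : ℝ} (hxy : ∀ m n : ℤ, m * x + n * y = 0 → m = 0 ∧ n = 0) :
    Dense (AddSubgroup.closure {x, y} : Set ℝ) := by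
  rcases AddSubgroup.dense_or_cyclic (AddSubgroup.closure {x, y}) with h | ⟨c, hc⟩
  · exact h
  · exfalso
    have hx : x ∈ AddSubgroup.closure {c} := by
      rw [← hc]; exact AddSubgroup.subset_closure (by simp)
    have hy : y ∈ AddSubgroup.closure {c} := by
      rw [← hc]; exact AddSubgroup.subset_closure (by simp)
    rw [AddSubgroup.mem_closure_singleton] at hx hy
    obtain ⟨m, hm⟩ := hx
    obtain ⟨n, hn⟩ := hy
    rw [zsmul_eq_mul] at hm hn
    have h1 := hxy n (-m) (by rw [← hm, ← hn]; push_cast; ring)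
    have h2 : x = 0 := by
      rw [← hm]
      have : m = 0 := by omega
      rw [this]; simp
    have h3 := hxy 1 0 (by rw [h2]; simp)
    exact one_ne_zero h3.1

theorem mem_closure_range [IsTopologicalGroup H] {φ : ℝ → H} (hJ : OneParam J)
    (hφ : OneParam φ) {x y : ℝ} (hxy : ∀ m n : ℤ, m * x + n * y = 0 → m = 0 ∧ n = 0)
    (hx : φ x ∈ range J) (hy : φ y ∈ range J) (t : ℝ) : φ t ∈ closure (range J) := by
  have hd := dense_closure hxy
  let S : AddSubgroup ℝ :=
    { carrier := {t | φ t ∈ range J}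
      zero_mem' := ⟨0, by rw [hJ.zero, hφ.zero]⟩
      add_mem' := by
        rintro a b ⟨u, hu⟩ ⟨v, hv⟩
        exact ⟨u + v, by rw [hJ.add, hφ.add, hu, hv]⟩
      neg_mem' := by
        rintro a ⟨u, hu⟩
        exact ⟨-u, by rw [hJ.neg, hφ.neg, hu]⟩ }
  have hS : AddSubgroup.closure {x, y} ≤ S := by
    rw [AddSubgroup.closure_le]
    intro z hz
    simp only [mem_insert_iff, mem_singleton_iff] at hz
    rcases hz with rfl | rfl
    · exact hx
    · exact hy
  refine closure_mono (s := φ '' (AddSubgroup.closure {x, y} : Set ℝ)) ?_ ?_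
  · rintro _ ⟨z, hz, rfl⟩
    exact hS hz
  · exact image_closure_subset_closure_image hφ.cont ⟨t, hd t, rfl⟩

/-- the set where two one-parameter subgroups agree -/
theorem eq_of_frequently [T2Space H] {φ ψ : ℝ → H} (hφ : OneParam φ) (hψ : OneParam ψ)
    (h : ∀ ε > 0, ∃ g, φ g = ψ g ∧ g ∈ Ioo 0 ε) (t : ℝ) : φ t = ψ t := by
  let E : AddSubgroup ℝ :=
    { carrier := {t | φ t = ψ t}
      zero_mem' := by
        change φ 0 = ψ 0
        rw [hφ.zero, hψ.zero]
      add_mem' := by
        intro a b (ha : φ a = ψ a) (hb : φ b = ψ b)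
        change φ (a + b) = ψ (a + b)
        rw [hφ.add, hψ.add, ha, hb]
      neg_mem' := by
        intro a (ha : φ a = ψ a)
        change φ (-a) = ψ (-a)
        rw [hφ.neg, hψ.neg, ha] }
  have hd : Dense (E : Set ℝ) := AddSubgroup.dense_of_not_isolated_zero E fun ε hε => by
    obtain ⟨g, hg, hg'⟩ := h ε hε
    exact ⟨g, hg, hg'⟩
  have hc : IsClosed (E : Set ℝ) := isClosed_eq hφ.cont hψ.cont
  have : t ∈ (E : Set ℝ) := by
    rw [← hc.closure_eq]
    exact hd t
  exact this

theorem int (hJ : OneParam J) (h1 : J 1 = 1) (n : ℤ) : J n = 1 := by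
  have hnat : ∀ n : ℕ, J n = 1 := by
    intro n
    induction n with
    | zero => simpa using hJ.zero
    | succ n ih => rw [Nat.cast_succ, hJ.add, ih, h1, one_mul]
  obtain ⟨m, rfl | rfl⟩ := n.eq_nat_or_neg
  · simpa using hnat m
  · rw [Int.cast_neg, hJ.neg]
    simpa using hnat m

/-- One-parameter subgroups inside a circle subgroup. -/
theorem exists_scale_of_circle [T2Space H] {φ : ℝ → H} (hJ : OneParam J) (h1 : J 1 = 1)
    (hker : ∀ t, J t = 1 → ∃ n : ℤ, t = n) (hφ : OneParam φ) (hr : ∀ t, φ t ∈ range J) :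
    ∃ s : ℝ, ∀ t, φ t = J (s * t) := by
  -- a choice of preimages in `[-1/2, 1/2]`
  have hθ : ∀ t, ∃ u : ℝ, |u| ≤ 1 / 2 ∧ J u = φ t := by
    intro t
    obtain ⟨u, hu⟩ := hr t
    refine ⟨u - round u, abs_sub_round u, ?_⟩
    rw [hJ.sub, hJ.int h1, inv_one, one_mul, hu]
  choose θ hθ1 hθ2 using hθ
  set A : Set H := J '' {u | 1 / 8 ≤ |u| ∧ |u| ≤ 1 / 2} with hA
  have hAc : IsClosed A := by
    have hcl : IsClosed {u : ℝ | 1 / 8 ≤ |u| ∧ |u| ≤ 1 / 2} :=
      (isClosed_le continuous_const continuous_abs).inter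
        (isClosed_le continuous_abs continuous_const)
    have hco : IsCompact {u : ℝ | 1 / 8 ≤ |u| ∧ |u| ≤ 1 / 2} := by
      refine (isCompact_Icc (a := (-(1 / 2) : ℝ)) (b := 1 / 2)).of_isClosed_subset hcl ?_
      intro u hu
      exact abs_le.1 hu.2
    exact (hco.image hJ.cont).isClosed
  have hsmall : ∀ x : ℝ, |x| < 1 → J x = 1 → x = 0 := by
    intro x hx hJx
    obtain ⟨n, rfl⟩ := hker x hJx
    have h2 : |n| < 1 := by exact_mod_cast hx
    rw [Int.abs_lt_one_iff] at h2
    rw [h2]; simp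
  have hA1 : (1 : H) ∉ A := by
    rintro ⟨u, ⟨hu1, hu2⟩, hu⟩
    have := hsmall u (by linarith) hu
    rw [this, abs_zero] at hu1
    linarith
  have hopen : φ ⁻¹' Aᶜ ∈ 𝓝 (0 : ℝ) :=
    (hAc.isOpen_compl.preimage hφ.cont).mem_nhds (by
      change φ 0 ∉ A
      rw [hφ.zero]; exact hA1)
  obtain ⟨δ, hδ, hball⟩ := Metric.mem_nhds_iff.1 hopen
  have hθs : ∀ t, |t| < δ → |θ t| < 1 / 8 := by
    intro t ht
    by_contra hcon
    rw [not_lt] at hcon
    have h2 : φ t ∉ A := hball (by rw [Metric.mem_ball, Real.dist_0_eq_abs]; exact ht)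
    exact h2 ⟨θ t, ⟨hcon, hθ1 t⟩, hθ2 t⟩
  -- halving
  have hhalf : ∀ x, |x| < δ → θ x = 2 * θ (x / 2) := by
    intro x hx
    have hx2 : |x / 2| < δ := by
      rw [abs_div, abs_two]
      have := abs_nonneg x
      linarith
    have e1 := hθs x hx
    have e2 := hθs (x / 2) hx2
    have h2 : J (θ x - 2 * θ (x / 2)) = 1 := by
      rw [hJ.sub, two_mul, hJ.add, hθ2, hθ2, ← hφ.add, add_halves, inv_mul_cancel]
    have h3 := hsmall _ (by
      calc |θ x - 2 * θ (x / 2)| ≤ |θ x| + |2 * θ (x / 2)| := abs_sub _ _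
        _ = |θ x| + 2 * |θ (x / 2)| := by rw [abs_mul, abs_two]
        _ < 1 := by linarith) h2
    linarith
  set T : ℝ := δ / 2 with hT
  have hTpos : 0 < T := by positivity
  have hpow : ∀ k : ℕ, θ (T / 2 ^ k) = θ T / 2 ^ k := by
    intro k
    induction k with
    | zero => simp
    | succ k ih =>
      have h2 := hhalf (T / 2 ^ k) (by
        rw [abs_of_pos (by positivity)]
        calc T / 2 ^ k ≤ T := div_le_self hTpos.le (one_le_pow₀ (by norm_num))
          _ < δ := by rw [hT]; linarith)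
      have e : T / 2 ^ k / 2 = T / 2 ^ (k + 1) := by rw [pow_succ]; field_simp
      rw [e, ih] at h2
      have e' : θ T / 2 ^ (k + 1) = θ T / 2 ^ k / 2 := by rw [pow_succ]; field_simp
      rw [e', h2]; ring
  refine ⟨θ T / T, eq_of_frequently hφ (hJ.comp_mul _) fun ε hε => ?_⟩
  obtain ⟨k, hk⟩ := exists_pow_lt_of_lt_one (x := ε / T) (by positivity)
    (show (1 / 2 : ℝ) < 1 by norm_num)
  refine ⟨T / 2 ^ k, ?_, by positivity, ?_⟩
  · rw [← hθ2, hpow]
    congr 1
    field_simp
  · rw [lt_div_iff₀ hTpos] at hk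
    calc T / 2 ^ k = (1 / 2) ^ k * T := by rw [one_div, inv_pow]; ring
      _ < ε := hk

/-- If there is a nontrivial one-parameter subgroup, there is one for which conjugations acting
on two of its values act by a scaling. -/
theorem exists_good [IsTopologicalGroup H] [T2Space H] (hJ : OneParam J) (hne : ∃ t, J t ≠ 1) :
    ∃ J : ℝ → H, OneParam J ∧ (∀ t, J t = 1 → ∃ n : ℤ, t = n) ∧
      ∀ (k : H) (a a' b b' : ℝ),
        (∀ l m n : ℤ, (l : ℝ) + m * a + n * a' = 0 → l = 0 ∧ m = 0 ∧ n = 0) →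
        k * J a * k⁻¹ = J b → k * J a' * k⁻¹ = J b' → ∃ s : ℝ, ∀ t, k * J t * k⁻¹ = J (s * t) := by
  by_cases hcirc : ∃ J : ℝ → H, OneParam J ∧ (∃ t, J t ≠ 1) ∧ ∃ a, a ≠ 0 ∧ J a = 1
  · -- there is a circle subgroup
    obtain ⟨I, hI, ⟨t0, ht0⟩, a0, ha0, hIa⟩ := hcirc
    let K : AddSubgroup ℝ :=
      { carrier := {t | I t = 1}
        zero_mem' := hI.zero
        add_mem' := by
          intro a b (ha : I a = 1) (hb : I b = 1)
          change I (a + b) = 1
          rw [hI.add, ha, hb, one_mul]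
        neg_mem' := by
          intro a (ha : I a = 1)
          change I (-a) = 1
          rw [hI.neg, ha, inv_one] }
    have hKc : IsClosed (K : Set ℝ) := isClosed_eq hI.cont continuous_const
    obtain ⟨c, hc⟩ : ∃ c, K = AddSubgroup.closure {c} := by
      rcases K.dense_or_cyclic with h | h
      · exfalso
        apply ht0
        have : t0 ∈ (K : Set ℝ) := by
          rw [← hKc.closure_eq]
          exact h t0
        exact this
      · exact h
    have hc0 : c ≠ 0 := by
      rintro rfl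
      have h1 : a0 ∈ K := hIa
      rw [hc, AddSubgroup.mem_closure_singleton] at h1
      obtain ⟨n, hn⟩ := h1
      rw [smul_zero] at hn
      exact ha0 hn.symm
    have hmem : ∀ t, I t = 1 ↔ ∃ n : ℤ, t = n * c := by
      intro t
      have h1 : I t = 1 ↔ t ∈ K := Iff.rfl
      rw [h1, hc, AddSubgroup.mem_closure_singleton]
      simp only [zsmul_eq_mul, eq_comm]
    have hJ' : OneParam fun t => I (c * t) := hI.comp_mul c
    have hker : ∀ t, I (c * t) = 1 → ∃ n : ℤ, t = n := by
      intro t ht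
      obtain ⟨n, hn⟩ := (hmem _).1 ht
      refine ⟨n, ?_⟩
      have : c * t = c * n := by rw [hn]; ring
      exact mul_left_cancel₀ hc0 this
    have h1 : I (c * 1) = 1 := (hmem _).2 ⟨1, by simp⟩
    refine ⟨fun t => I (c * t), hJ', hker, ?_⟩
    intro k a a' b b' hind hab _
    refine hJ'.exists_scale_of_circle h1 hker (hJ'.conj k) fun t => ?_
    -- the image is compact
    have hrange : range (fun t => I (c * t)) = (fun t => I (c * t)) '' Icc (-1 / 2) (1 / 2) := by
      refine Subset.antisymm ?_ (image_subset_range _ _)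
      rintro _ ⟨u, rfl⟩
      refine ⟨u - round u, ?_, ?_⟩
      · have := abs_le.1 (abs_sub_round u)
        exact ⟨by linarith [this.1], this.2⟩
      · have h2 := hJ'.sub u (round u)
        have h3 := hJ'.int h1 (round u)
        simp only [h2, h3, inv_one, one_mul]
    have hclosed : IsClosed (range (fun t => I (c * t))) := by
      rw [hrange]
      exact (isCompact_Icc.image hJ'.cont).isClosed
    have h4 := mem_closure_range hJ' (hJ'.conj k) (x := a) (y := 1)
      (fun m n h => by
        have := hind n m 0 (by push_cast; linarith)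
        exact ⟨this.2.1, this.1⟩) ⟨b, hab.symm⟩ ⟨1, by simp only [h1]; simp⟩ t
    rw [hclosed.closure_eq] at h4
    exact h4
  · push Not at hcirc
    refine ⟨J, hJ, ?_, ?_⟩
    · intro t ht
      refine ⟨0, ?_⟩
      by_contra h
      exact hcirc J hJ hne t (by simpa using h) ht
    · intro k a a' b b' hind hab hab'
      have ha : a ≠ 0 := by
        rintro rfl
        have := hind 0 1 0 (by simp)
        exact one_ne_zero this.2.1
      have hφ := hJ.conj k
      have hcl : ∀ t, k * J t * k⁻¹ ∈ closure (range J) := fun t =>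
        mem_closure_range hJ hφ (x := a) (y := a')
          (fun m n h => by
            have := hind 0 m n (by push_cast; linarith)
            exact ⟨this.2.1, this.2.2⟩) ⟨b, hab.symm⟩ ⟨b', hab'.symm⟩ t
      have hcomm : ∀ x ∈ closure (range J), ∀ u, x * J u = J u * x := by
        intro x hx u
        have h1 : closure (range J) ⊆ {x | x * J u = J u * x} := by
          refine closure_minimal ?_ (isClosed_eq (by fun_prop) (by fun_prop))
          rintro _ ⟨v, rfl⟩
          exact hJ.comm v u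
        exact h1 hx
      refine ⟨b / a, fun t => ?_⟩
      have hκ : OneParam fun t => k * J t * k⁻¹ * (J (b / a * t))⁻¹ := by
        refine ⟨?_, fun x y => ?_⟩
        · have h1 := hφ.cont
          have h2 := (hJ.comp_mul (b / a)).cont
          exact h1.mul h2.inv
        · have h1 := hφ.add x y
          have h2 := (hJ.comp_mul (b / a)).add x y
          simp only [h1, h2, mul_inv_rev]
          have h3 : Commute (k * J y * k⁻¹) (J (b / a * x)) := hcomm _ (hcl y) _
          have h4 : Commute (J (b / a * x)) (J (b / a * y)) := hJ.comm _ _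
          have h3' := h3.inv_right
          have h4' := h4.inv_inv
          calc k * J x * k⁻¹ * (k * J y * k⁻¹) * ((J (b / a * y))⁻¹ * (J (b / a * x))⁻¹)
              = k * J x * k⁻¹ * (k * J y * k⁻¹) * ((J (b / a * x))⁻¹ * (J (b / a * y))⁻¹) := by
                rw [h4'.eq]
            _ = k * J x * k⁻¹ * ((k * J y * k⁻¹) * (J (b / a * x))⁻¹) * (J (b / a * y))⁻¹ := by
                group
            _ = k * J x * k⁻¹ * ((J (b / a * x))⁻¹ * (k * J y * k⁻¹)) * (J (b / a * y))⁻¹ := by
                rw [h3'.eq]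
            _ = k * J x * k⁻¹ * (J (b / a * x))⁻¹ * (k * J y * k⁻¹ * (J (b / a * y))⁻¹) := by
                group
      by_contra hcon
      refine hcirc _ hκ ⟨t, fun h => hcon (mul_inv_eq_one.1 h)⟩ a ha ?_
      rw [div_mul_cancel₀ _ ha, hab, mul_inv_cancel]

end OneParam

theorem real_infinite_of_isOpen (U : Set ℝ) (hU : IsOpen U) (hne : U.Nonempty) : U.Infinite := by
  obtain ⟨x, hx⟩ := hne
  exact infinite_of_mem_nhds x (hU.mem_nhds hx)

/-- A topological group with a nontrivial one-parameter subgroup has a Cantor cover. -/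
theorem CantorCover.of_oneParam {H : Type*} [Group H] [TopologicalSpace H] [IsTopologicalGroup H]
    [T2Space H] (f : Multiplicative ℝ →* H) (hf : Continuous f) (hne : f ≠ 1) :
    CantorCover H := by
  classical
  have hJ0 : OneParam fun t : ℝ => f (Multiplicative.ofAdd t) :=
    ⟨hf.comp continuous_ofAdd, fun x y => by rw [ofAdd_add, map_mul]⟩
  have hne0 : ∃ t : ℝ, f (Multiplicative.ofAdd t) ≠ 1 := by
    by_contra hcon
    push Not at hcon
    exact hne (MonoidHom.ext fun x => hcon (Multiplicative.toAdd x))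
  obtain ⟨J, hJ, hker, hscale⟩ := hJ0.exists_good hne0
  obtain ⟨σ, hσ, hσa⟩ := exists_algInd (K := ℝ) real_infinite_of_isOpen
  have hAI : AlgInd σ := hσa
  have hσinj : Function.Injective σ := hAI.injective
  -- injectivity
  have hinf : (univ : Set (ℕ → Bool)).Infinite := infinite_univ
  have hint : ∀ x y : ℕ → Bool, x ≠ y → ∀ n : ℤ, σ x - σ y ≠ n := by
    intro x y hxy n hn
    obtain ⟨z, -, hz⟩ := (hinf.sdiff (t := {x, y}) (by simp)).nonempty
    simp only [mem_insert_iff, mem_singleton_iff, not_or] at hz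
    have := hAI.lin (a1 := x) (a2 := y) (a3 := z) hxy (Ne.symm hz.1) (Ne.symm hz.2)
      (l := -n) (m := 1) (n := 0) (by push_cast; rw [hn]; ring)
    exact one_ne_zero this.2.1
  have hpinj : Function.Injective fun x => J (σ x) := by
    intro x y hxy
    by_contra hne
    simp only at hxy
    obtain ⟨n, hn⟩ := hker (σ x - σ y) (by rw [hJ.sub, hxy, inv_mul_cancel])
    exact hint x y hne n hn
  refine CantorCover.of_core (fun x => J (σ x)) (hJ.cont.comp hσ) hpinj
    (fun _ _ => univ) ?_ ?_
  · intro M hM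
    obtain ⟨t, htM, htc⟩ := hM.exists_subset_card_eq 3
    obtain ⟨x, y, z, hxy, hxz, hyz, rfl⟩ := Finset.card_eq_three.1 htc
    exact ⟨x, htM (by simp), y, htM (by simp), z, htM (by simp), hxy, hxz, hyz, subset_univ _⟩
  · intro g h g' h' a1 a2 a3 b1 b2 b3 h12 h13 h23 _ e1 e2 e3
    have k12 : b1 ≠ b2 := by
      rintro rfl
      have := e1.trans e2.symm
      simp only [mul_left_inj, mul_right_inj] at this
      exact h12 (hpinj this)
    have k13 : b1 ≠ b3 := by
      rintro rfl
      have := e1.trans e3.symm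
      simp only [mul_left_inj, mul_right_inj] at this
      exact h13 (hpinj this)
    have k23 : b2 ≠ b3 := by
      rintro rfl
      have := e2.trans e3.symm
      simp only [mul_left_inj, mul_right_inj] at this
      exact h23 (hpinj this)
    have hk : ∀ a b a' b' : ℝ, g * J a * h = g' * J b * h' → g * J a' * h = g' * J b' * h' →
        (h' * h⁻¹) * J (a - a') * (h' * h⁻¹)⁻¹ = J (b - b') := by
      intro a b a' b' e e'
      rw [hJ.sub, hJ.sub]
      have h3 : (g * J a' * h)⁻¹ * (g * J a * h) = (g' * J b' * h')⁻¹ * (g' * J b * h') := by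
        rw [e, e']
      have h4 : h⁻¹ * ((J a')⁻¹ * J a) * h = h'⁻¹ * ((J b')⁻¹ * J b) * h' := by
        calc h⁻¹ * ((J a')⁻¹ * J a) * h = (g * J a' * h)⁻¹ * (g * J a * h) := by group
          _ = (g' * J b' * h')⁻¹ * (g' * J b * h') := h3
          _ = h'⁻¹ * ((J b')⁻¹ * J b) * h' := by group
      calc (h' * h⁻¹) * ((J a')⁻¹ * J a) * (h' * h⁻¹)⁻¹ =
          h' * (h⁻¹ * ((J a')⁻¹ * J a) * h) * h'⁻¹ := by group
        _ = h' * (h'⁻¹ * ((J b')⁻¹ * J b) * h') * h'⁻¹ := by rw [h4]
        _ = (J b')⁻¹ * J b := by group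
    have c12 := hk _ _ _ _ e1 e2
    have c13 := hk _ _ _ _ e1 e3
    obtain ⟨s, hs⟩ := hscale (h' * h⁻¹) _ _ _ _
      (fun l m n hlmn => hAI.lin h12 h13 h23 hlmn) c12 c13
    -- the integers
    rw [hs] at c12 c13
    obtain ⟨j, hj⟩ := hker (σ b1 - σ b2 - s * (σ a1 - σ a2)) (by
      rw [hJ.sub, c12, inv_mul_cancel])
    obtain ⟨j', hj'⟩ := hker (σ b1 - σ b3 - s * (σ a1 - σ a3)) (by
      rw [hJ.sub, c13, inv_mul_cancel])
    obtain ⟨rfl, rfl, rfl, rfl, rfl⟩ := hAI.ratio (j := j) (j' := j') h12 h13 h23 k12 k13 k23 (by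
      rw [← hj, ← hj']; ring)
    have hs1 : s = 1 := by
      have h5 : σ b1 - σ b2 ≠ 0 := sub_ne_zero.2 (hσinj.ne h12)
      have h6 : (1 - s) * (σ b1 - σ b2) = 0 := by
        rw [Int.cast_zero] at hj
        linarith
      rcases mul_eq_zero.1 h6 with h7 | h7
      · linarith
      · exact absurd h7 h5
    refine ⟨rfl, rfl, rfl, fun y _ => ?_⟩
    have h7 : ∀ t, (h' * h⁻¹) * J t = J t * (h' * h⁻¹) := by
      intro t
      have := hs t
      rw [hs1, one_mul] at this
      exact mul_inv_eq_iff_eq_mul.1 this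
    have h8 : σ y = σ b1 + (σ y - σ b1) := by ring
    rw [h8, hJ.add]
    calc g * (J (σ b1) * J (σ y - σ b1)) * h
        = (g * J (σ b1) * h) * (h⁻¹ * J (σ y - σ b1) * h) := by group
      _ = (g' * J (σ b1) * h') * (h⁻¹ * J (σ y - σ b1) * h) := by rw [e1]
      _ = g' * J (σ b1) * ((h' * h⁻¹) * J (σ y - σ b1)) * h := by group
      _ = g' * J (σ b1) * (J (σ y - σ b1) * (h' * h⁻¹)) * h := by rw [h7]
      _ = g' * (J (σ b1) * J (σ y - σ b1)) * h' := by group

end Pool.Agent.MP8b9
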