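import Pool.Agent.Lib.MP_8b9ec4_lc.Core
import Pool.Agent.Lib.MP_8b9ec4_lc.AlgInd

/-!
# Groups containing a continuous injective image of the `p`-adic integers
-/

namespace Pool.Agent.MP8b9

open Set Topology TopologicalSpace

section

variable {q : ℕ} [hq : Fact q.Prime]

theorem padicInt_infinite_of_isOpen (U : Set ℤ_[q]) (hU : IsOpen U) (hne : U.Nonempty) :
    U.Infinite := by
  obtain ⟨x, hx⟩ := hne
  obtain ⟨ε, hε, hball⟩ := Metric.isOpen_iff.1 hU x hx
  obtain ⟨K, hK⟩ := PadicInt.exists_pow_neg_lt (p := q) hε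
  have hq1 : (1 : ℝ) < q := by exact_mod_cast hq.out.one_lt
  refine Set.infinite_of_injective_forall_mem (f := fun k : ℕ => x + (q : ℤ_[q]) ^ (K + k)) ?_ ?_
  · intro k l hkl
    have h1 : (q : ℤ_[q]) ^ (K + k) = (q : ℤ_[q]) ^ (K + l) := add_left_cancel hkl
    have h2 : ((q ^ (K + k) : ℕ) : ℤ_[q]) = ((q ^ (K + l) : ℕ) : ℤ_[q]) := by
      push_cast; exact h1
    have h3 := Nat.cast_injective (R := ℤ_[q]) h2
    have h4 := Nat.pow_right_injective hq.out.two_le h3
    omega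
  · intro k
    refine hball ?_
    rw [Metric.mem_ball, dist_eq_norm, add_sub_cancel_left, PadicInt.norm_p_pow]
    refine lt_of_le_of_lt ?_ hK
    exact zpow_le_zpow_right₀ hq1.le (by push_cast; omega)

theorem padicInt_exists_mul {a a' : ℤ_[q]} (ha : a ≠ 0) (h : ‖a'‖ ≤ ‖a‖) : ∃ z, a' = z * a := by
  have ha0 : (a : ℚ_[q]) ≠ 0 := PadicInt.coe_ne_zero.2 ha
  have hn : ‖(a' : ℚ_[q]) / (a : ℚ_[q])‖ ≤ 1 := by
    rw [norm_div, PadicInt.padic_norm_e_of_padicInt, PadicInt.padic_norm_e_of_padicInt]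
    exact div_le_one_of_le₀ h (norm_nonneg _)
  obtain ⟨z, hz⟩ : ∃ z : ℤ_[q], (z : ℚ_[q]) = (a' : ℚ_[q]) / (a : ℚ_[q]) := ⟨⟨_, hn⟩, rfl⟩
  refine ⟨z, PadicInt.ext ?_⟩
  rw [PadicInt.coe_mul, hz]
  exact (div_mul_cancel₀ _ ha0).symm

theorem padicInt_norm_le_of_valuation_le {x y : ℤ_[q]} (hx : x ≠ 0) (hy : y ≠ 0)
    (h : x.valuation ≤ y.valuation) : ‖y‖ ≤ ‖x‖ := by
  rw [PadicInt.norm_eq_zpow_neg_valuation hx, PadicInt.norm_eq_zpow_neg_valuation hy]
  have hq1 : (1 : ℝ) ≤ q := by exact_mod_cast hq.out.one_lt.le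
  exact zpow_le_zpow_right₀ hq1 (by omega)

/-- A topological group with a continuous injective homomorphism from the `p`-adic integers has a
Cantor cover. -/
theorem CantorCover.of_padic {H : Type*} [Group H] [TopologicalSpace H] [IsTopologicalGroup H]
    [T2Space H] (f : Multiplicative ℤ_[q] →* H) (hf : Continuous f)
    (hinj : Function.Injective f) : CantorCover H := by
  classical
  set I : ℤ_[q] → H := fun x => f (Multiplicative.ofAdd x) with hI
  have hIc : Continuous I := hf.comp continuous_ofAdd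
  have hIinj : Function.Injective I := fun x y hxy => hinj hxy
  have hIadd : ∀ x y, I (x + y) = I x * I y := fun x y => by simp [hI, ofAdd_add]
  have hIneg : ∀ x, I (-x) = (I x)⁻¹ := fun x => by simp [hI, ofAdd_neg]
  have hInat : ∀ (n : ℕ) x, I ((n : ℤ_[q]) * x) = (I x) ^ n := by
    intro n x
    induction n with
    | zero => simp [hI]
    | succ n ih => rw [Nat.cast_succ, add_mul, one_mul, hIadd, ih, pow_succ]
  obtain ⟨σ, hσ, hσa⟩ := exists_algInd (K := ℤ_[q]) padicInt_infinite_of_isOpen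
  have hAI : AlgInd σ := hσa
  have hσinj : Function.Injective σ := hAI.injective
  -- conjugation on multiples
  have hconj : ∀ (k : H) (a b : ℤ_[q]), k * I a * k⁻¹ = I b →
      ∀ z : ℤ_[q], k * I (z * a) * k⁻¹ = I (z * b) := by
    intro k a b hab
    have h1 : (fun z : ℤ_[q] => k * I (z * a) * k⁻¹) = fun z => I (z * b) := by
      refine PadicInt.denseRange_natCast.equalizer (by fun_prop) (by fun_prop) ?_
      ext n
      simp only [Function.comp_apply, hInat]
      rw [← hab, conj_pow]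
    exact congrFun h1
  refine CantorCover.of_core (fun x => I (σ x)) (hIc.comp hσ) (hIinj.comp hσinj)
    (fun a b => {y | ‖σ a - σ y‖ ≤ ‖σ a - σ b‖}) ?_ ?_
  · -- the pair at maximal distance
    intro M hM
    obtain ⟨t, htM, htc⟩ := hM.exists_subset_card_eq 2
    obtain ⟨x, y, hxy, rfl⟩ := Finset.card_eq_two.1 htc
    set W : Set ℕ := {v | ∃ a ∈ M, ∃ b ∈ M, a ≠ b ∧ (σ a - σ b).valuation = v} with hW
    have hWne : W.Nonempty := ⟨_, x, htM (by simp), y, htM (by simp), hxy, rfl⟩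
    obtain ⟨a, ha, b, hb, hab, hv⟩ := Nat.sInf_mem hWne
    have hmin : ∀ y ∈ M, a ≠ y → (σ a - σ b).valuation ≤ (σ a - σ y).valuation := by
      intro y hy hay
      rw [hv]
      exact Nat.sInf_le ⟨a, ha, y, hy, hay, rfl⟩
    have hinf : (M \ {a, b}).Infinite := hM.sdiff (by simp)
    obtain ⟨c, hcM, hc⟩ := hinf.nonempty
    simp only [mem_insert_iff, mem_singleton_iff, not_or] at hc
    refine ⟨a, ha, b, hb, c, hcM, hab, fun h => hc.1 h.symm, fun h => hc.2 h.symm, ?_⟩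
    intro y hy
    change ‖σ a - σ y‖ ≤ ‖σ a - σ b‖
    by_cases hay : a = y
    · rw [hay]; simp
    · refine padicInt_norm_le_of_valuation_le ?_ ?_ (hmin y hy hay)
      · exact sub_ne_zero.2 (hσinj.ne hab)
      · exact sub_ne_zero.2 (hσinj.ne hay)
  · intro g h g' h' a1 a2 a3 b1 b2 b3 h12 h13 h23 hnear e1 e2 e3
    have k12 : b1 ≠ b2 := by
      rintro rfl
      have := e1.trans e2.symm
      simp only [mul_left_inj, mul_right_inj] at this
      exact h12 (hσinj (hIinj this))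
    have k13 : b1 ≠ b3 := by
      rintro rfl
      have := e1.trans e3.symm
      simp only [mul_left_inj, mul_right_inj] at this
      exact h13 (hσinj (hIinj this))
    have k23 : b2 ≠ b3 := by
      rintro rfl
      have := e2.trans e3.symm
      simp only [mul_left_inj, mul_right_inj] at this
      exact h23 (hσinj (hIinj this))
    -- conjugation by `h' h⁻¹`
    have hk : ∀ a b a' b' : ℤ_[q], g * I a * h = g' * I b * h' → g * I a' * h = g' * I b' * h' →
        (h' * h⁻¹) * I (a - a') * (h' * h⁻¹)⁻¹ = I (b - b') := by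
      intro a b a' b' e e'
      have h1 : I (a - a') = (I a')⁻¹ * I a := by
        rw [sub_eq_add_neg, add_comm, hIadd, hIneg]
      have h2 : I (b - b') = (I b')⁻¹ * I b := by
        rw [sub_eq_add_neg, add_comm, hIadd, hIneg]
      rw [h1, h2]
      have h3 : (g * I a' * h)⁻¹ * (g * I a * h) = (g' * I b' * h')⁻¹ * (g' * I b * h') := by
        rw [e, e']
      have h4 : h⁻¹ * ((I a')⁻¹ * I a) * h = h'⁻¹ * ((I b')⁻¹ * I b) * h' := by
        calc h⁻¹ * ((I a')⁻¹ * I a) * h = (g * I a' * h)⁻¹ * (g * I a * h) := by group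
          _ = (g' * I b' * h')⁻¹ * (g' * I b * h') := h3
          _ = h'⁻¹ * ((I b')⁻¹ * I b) * h' := by group
      calc (h' * h⁻¹) * ((I a')⁻¹ * I a) * (h' * h⁻¹)⁻¹ =
          h' * (h⁻¹ * ((I a')⁻¹ * I a) * h) * h'⁻¹ := by group
        _ = h' * (h'⁻¹ * ((I b')⁻¹ * I b) * h') * h'⁻¹ := by rw [h4]
        _ = (I b')⁻¹ * I b := by group
    have c12 := hk _ _ _ _ e1 e2
    have c13 := hk _ _ _ _ e1 e3
    have hne : σ a1 - σ a2 ≠ 0 := sub_ne_zero.2 (hσinj.ne h12)
    obtain ⟨z, hz⟩ := padicInt_exists_mul hne hnear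
    have hz' : σ b1 - σ b3 = z * (σ b1 - σ b2) := by
      apply hIinj
      rw [← c13, hz]
      exact hconj _ _ _ c12 z
    obtain ⟨rfl, rfl, rfl, -, -⟩ := hAI.ratio (j := 0) (j' := 0) h12 h13 h23 k12 k13 k23 (by
      rw [hz, hz']; ring)
    refine ⟨rfl, rfl, rfl, fun y hy => ?_⟩
    obtain ⟨w, hw⟩ := padicInt_exists_mul hne hy
    have h1 : σ y = σ b1 + -(w * (σ b1 - σ b2)) := by rw [← hw]; ring
    have h2 := hconj _ _ _ c12 w
    have h3 : (h' * h⁻¹) * I (-(w * (σ b1 - σ b2))) = I (-(w * (σ b1 - σ b2))) * (h' * h⁻¹) := by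
      have h4 : (h' * h⁻¹) * I (w * (σ b1 - σ b2)) = I (w * (σ b1 - σ b2)) * (h' * h⁻¹) :=
        mul_inv_eq_iff_eq_mul.1 h2
      rw [hIneg]
      have h5 : Commute (h' * h⁻¹) (I (w * (σ b1 - σ b2))) := h4
      exact h5.inv_right
    rw [h1, hIadd]
    calc g * (I (σ b1) * I (-(w * (σ b1 - σ b2)))) * h
        = (g * I (σ b1) * h) * (h⁻¹ * I (-(w * (σ b1 - σ b2))) * h) := by group
      _ = (g' * I (σ b1) * h') * (h⁻¹ * I (-(w * (σ b1 - σ b2))) * h) := by rw [e1]
      _ = g' * I (σ b1) * ((h' * h⁻¹) * I (-(w * (σ b1 - σ b2)))) * h := by group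
      _ = g' * I (σ b1) * (I (-(w * (σ b1 - σ b2))) * (h' * h⁻¹)) * h := by rw [h3]
      _ = g' * (I (σ b1) * I (-(w * (σ b1 - σ b2)))) * h' := by group

end

end Pool.Agent.MP8b9
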