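import Pool.Agent.Lib.MP_8b9ec4_lc.Centre

/-!
# Uncountable solvable Polish groups
-/

namespace Pool.Agent.MP8b9

open Set Topology TopologicalSpace

/-- An uncountable solvable Polish group has a quotient by a closed normal subgroup which has an
open subgroup with uncountable centre. -/
theorem exists_section_of_solvable {G : Type*} [Group G] [TopologicalSpace G]
    [IsTopologicalGroup G] [PolishSpace G] (hunc : Uncountable G) (hsolv : Group.IsSolvable G) :
    ∃ N : Subgroup G, ∃ _ : N.Normal, IsClosed (N : Set G) ∧
      ∃ U : Subgroup (G ⧸ N), IsOpen (U : Set (G ⧸ N)) ∧ ¬ Countable (Subgroup.center U) := by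
  classical
  set D : ℕ → Subgroup G := fun k => (derivedSeries G k).topologicalClosure with hD
  have hDn : ∀ k, (D k).Normal := fun k => Subgroup.is_normal_topologicalClosure _
  have hDc : ∀ k, IsClosed (D k : Set G) := fun k => Subgroup.isClosed_topologicalClosure _
  have h0 : IsOpen (D 0 : Set G) := by
    have : D 0 = ⊤ := by
      simp only [hD, derivedSeries_zero]
      exact top_le_iff.1 (Subgroup.le_topologicalClosure _)
    rw [this]
    exact isOpen_univ
  obtain ⟨n, hn⟩ := hsolv.solvable
  have hlast : ¬ IsOpen (D n : Set G) := by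
    intro hopen
    have h1 : (D n : Set G) = {1} := by
      simp only [hD, hn, Subgroup.topologicalClosure_coe, Subgroup.coe_bot, closure_singleton]
    rw [h1] at hopen
    have : DiscreteTopology G := discreteTopology_of_isOpen_singleton_one hopen
    have : Countable G := TopologicalSpace.separableSpace_iff_countable.1 inferInstance
    exact not_countable this
  have hex : ∃ k, IsOpen (D k : Set G) ∧ ¬ IsOpen (D (k + 1) : Set G) := by
    by_contra hcon
    push Not at hcon
    exact hlast (Nat.rec h0 (fun k hk => hcon k hk) n)
  obtain ⟨k, hk, hk'⟩ := hex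
  have hnorm := hDn (k + 1)
  refine ⟨D (k + 1), hDn (k + 1), hDc (k + 1), (D k).map (QuotientGroup.mk' (D (k + 1))), ?_, ?_⟩
  · exact QuotientGroup.isOpenMap_coe _ hk
  · intro hcount
    apply hk'
    set H := G ⧸ D (k + 1) with hH
    set U : Subgroup H := (D k).map (QuotientGroup.mk' (D (k + 1))) with hU
    have hUo : IsOpen (U : Set H) := QuotientGroup.isOpenMap_coe _ hk
    -- `U` is commutative
    have hcomm : ∀ a ∈ D k, ∀ b ∈ D k, a * b * a⁻¹ * b⁻¹ ∈ D (k + 1) := by
      intro a ha b hb
      have h1 := map_mem_closure₂ (f := fun a b : G => a * b * a⁻¹ * b⁻¹)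
        (s := (derivedSeries G k : Set G)) (t := (derivedSeries G k : Set G))
        (u := (derivedSeries G (k + 1) : Set G)) (by fun_prop) ha hb (by
          intro a ha b hb
          rw [derivedSeries_succ]
          exact Subgroup.commutator_mem_commutator ha hb)
      exact h1
    have hcomm' : ∀ u ∈ U, ∀ v ∈ U, u * v = v * u := by
      rintro _ ⟨a, ha, rfl⟩ _ ⟨b, hb, rfl⟩
      have h1 := hcomm a⁻¹ ((D k).inv_mem ha) b⁻¹ ((D k).inv_mem hb)
      rw [← map_mul, ← map_mul]
      refine (QuotientGroup.eq.2 ?_).symm
      have h2 : (b * a)⁻¹ * (a * b) = a⁻¹ * b⁻¹ * a⁻¹⁻¹ * b⁻¹⁻¹ := by group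
      rw [h2]
      exact h1
    have hUc : Countable U := by
      have h1 : Function.Injective (fun u : U => (⟨u, Subgroup.mem_center_iff.2 fun v =>
          Subtype.ext (hcomm' v v.2 u u.2)⟩ : Subgroup.center U)) := by
        intro u v huv
        exact congrArg Subtype.val huv
      exact h1.countable
    have hq : IsOpenQuotientMap (QuotientGroup.mk : G → H) := QuotientGroup.isOpenQuotientMap_mk
    have hsc : SecondCountableTopology H := hq.isQuotientMap.secondCountableTopology hq.isOpenMap
    obtain ⟨R, hRc, -, hR⟩ := exists_reps U hUo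
    have hHc : (univ : Set H).Countable := by
      have : (univ : Set H) ⊆ image2 (fun u d => u * d) (U : Set H) R := by
        intro h _
        obtain ⟨u, hu, d, hd, rfl⟩ := hR h
        exact ⟨u, hu, d, hd, rfl⟩
      have hUc' : (U : Set H).Countable := hUc
      exact (hUc'.image2 hRc _).mono this
    have hHc' : Countable H := countable_univ_iff.1 hHc
    have : BaireSpace H := hq.baireSpace
    have : IsClosed (D (k + 1) : Set G) := hDc (k + 1)
    obtain ⟨h, hh⟩ := nonempty_interior_of_iUnion_of_closed (f := fun h : H => ({h} : Set H))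
      (fun h => isClosed_singleton) (by ext x; simp)
    have h1 : IsOpen ({h} : Set H) := by
      obtain ⟨y, hy⟩ := hh
      have h2 : y ∈ ({h} : Set H) := interior_subset hy
      rw [mem_singleton_iff.1 h2] at hy
      have h3 : interior {h} = ({h} : Set H) := by
        refine Subset.antisymm interior_subset ?_
        rintro z hz
        rw [mem_singleton_iff.1 hz]
        exact hy
      rw [← h3]
      exact isOpen_interior
    have h2 : IsOpen ({1} : Set H) := by
      have h3 : ((fun x : H => h * x) ⁻¹' ({h} : Set H)) = {1} := by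
        ext x; simp
      rw [← h3]
      exact h1.preimage (by fun_prop)
    have h3 : (D (k + 1) : Set G) = (QuotientGroup.mk : G → H) ⁻¹' {1} := by
      ext x
      simp only [SetLike.mem_coe, mem_preimage, mem_singleton_iff]
      exact (QuotientGroup.eq_one_iff x).symm
    rw [h3]
    exact h2.preimage hq.continuous

/-- Quotients with a large centre of an open subgroup yield Cantor covers. -/
theorem CantorCover.of_section {G : Type*} [Group G] [TopologicalSpace G] [IsTopologicalGroup G]
    [PolishSpace G] (N : Subgroup G) [N.Normal] (hN : IsClosed (N : Set G)) (U : Subgroup (G ⧸ N))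
    (hU : IsOpen (U : Set (G ⧸ N))) (hZ : ¬ Countable (Subgroup.center U)) : CantorCover G := by
  have : IsClosed (N : Set G) := hN
  have hq : IsOpenQuotientMap (QuotientGroup.mk' N) := QuotientGroup.isOpenQuotientMap_mk
  exact CantorCover.of_quotient (QuotientGroup.mk' N) hq
    (CantorCover.of_centre (QuotientGroup.mk' N) hq U hU hZ)

end Pool.Agent.MP8b9
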